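import Mathlib
import Pool.Agent.H159R3.Exp.Curve

/-!
One-parameter groups of matrices as exponential polynomials.
-/

set_option autoImplicit false

namespace Pool.Agent.TH143

open MvPolynomial Metric Set Filter Topology

/-- the variable and the exponentials -/
noncomputable def xf (t : ℂ) (o : Option ℂ) : ℂ := o.elim t (fun μ => Complex.exp (μ * t))

/-- exponential polynomials -/
def EP (f : ℂ → ℂ) : Prop := ∃ p : MvPolynomial (Option ℂ) ℂ, ∀ t, f t = eval (xf t) p

theorem EP.const (c : ℂ) : EP (fun _ => c) := ⟨C c, fun t => by simp⟩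

theorem EP.id : EP (fun t => t) := ⟨X none, fun t => by simp [xf]⟩

theorem EP.exp (μ : ℂ) : EP (fun t => Complex.exp (μ * t)) := ⟨X (some μ), fun t => by simp [xf]⟩

theorem EP.add {f g : ℂ → ℂ} (hf : EP f) (hg : EP g) : EP (fun t => f t + g t) := by
  obtain ⟨p, hp⟩ := hf
  obtain ⟨q, hq⟩ := hg
  exact ⟨p + q, fun t => by simp only [map_add, hp, hq]⟩

theorem EP.mul {f g : ℂ → ℂ} (hf : EP f) (hg : EP g) : EP (fun t => f t * g t) := by
  obtain ⟨p, hp⟩ := hf
  obtain ⟨q, hq⟩ := hg
  exact ⟨p * q, fun t => by simp only [map_mul, hp, hq]⟩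

theorem EP.pow {f : ℂ → ℂ} (hf : EP f) (k : ℕ) : EP (fun t => f t ^ k) := by
  obtain ⟨p, hp⟩ := hf
  exact ⟨p ^ k, fun t => by simp only [map_pow, hp]⟩

theorem EP.sum {ι : Type*} (s : Finset ι) {f : ι → ℂ → ℂ} (hf : ∀ i ∈ s, EP (f i)) :
    EP (fun t => ∑ i ∈ s, f i t) := by
  classical
  induction s using Finset.induction_on with
  | empty => simpa using EP.const 0
  | insert i s hi ih =>
    simp only [Finset.sum_insert hi]
    exact (hf i (Finset.mem_insert_self i s)).add
      (ih fun j hj => hf j (Finset.mem_insert_of_mem hj))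

theorem EP.eval {κ : Type*} {h : ℂ → κ → ℂ} (hh : ∀ l, EP (fun t => h t l))
    (P : MvPolynomial κ ℂ) : EP (fun t => MvPolynomial.eval (h t) P) := by
  induction P using MvPolynomial.induction_on with
  | C a => simpa using EP.const a
  | add p q hp hq =>
    simp only [map_add]
    exact hp.add hq
  | mul_X p j hp =>
    simp only [map_mul, eval_X]
    exact hp.mul (hh j)

/-- common exponents of a finite family -/
theorem EP.common {J : Type} [Finite J] (f : J → ℂ → ℂ) (hf : ∀ j, EP (f j)) :
    ∃ (m : ℕ) (g : Fin m → ℂ → ℂ) (P : J → MvPolynomial (Fin (m + 1)) ℂ),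
      (∀ i, Differentiable ℂ (g i)) ∧
      ∀ j t, f j t = MvPolynomial.eval (Pool.Agent.H159R3.Exp.vec g t) (P j) := by
  classical
  have := Fintype.ofFinite J
  choose p hp using hf
  let s : Finset ℂ := Finset.univ.biUnion fun j => (p j).vars.eraseNone
  let e := s.equivFin
  let g : Fin s.card → ℂ → ℂ := fun i t => (e.symm i : ℂ) * t
  let φ : Option ℂ → Fin (s.card + 1) := fun o =>
    o.elim 0 (fun μ => if h : μ ∈ s then (e ⟨μ, h⟩).succ else 0)
  refine ⟨s.card, g, fun j => rename φ (p j), fun i => by fun_prop, fun j t => ?_⟩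
  rw [hp, eval_rename]
  apply eval₂Hom_congr' rfl _ rfl
  intro o ho _
  rcases o with _ | μ
  · simp [xf, φ, Pool.Agent.H159R3.Exp.vec]
  · have hμ : μ ∈ s := Finset.mem_biUnion.mpr ⟨j, Finset.mem_univ j, by
      rw [Finset.mem_eraseNone]
      exact ho⟩
    simp [xf, φ, Pool.Agent.H159R3.Exp.vec, hμ, g]

/-- solutions of linear systems with constant coefficients -/
theorem exists_exp_sol {V : Type} [AddCommGroup V] [Module ℂ V] [FiniteDimensional ℂ V]
    (T : Module.End ℂ V) (v : V) :
    ∃ (N : ℕ) (c : Fin N → ℂ → ℂ) (c' : Fin N → ℂ → ℂ) (x : Fin N → V),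
      (∀ i, EP (c i)) ∧ (∀ i t, HasDerivAt (c i) (c' i t) t) ∧
      (∑ i, c i 0 • x i = v) ∧ ∀ t, ∑ i, c' i t • x i = T (∑ i, c i t • x i) := by
  have hv : v ∈ ⨆ (μ : ℂ), T.maxGenEigenspace μ := by
    rw [Module.End.iSup_maxGenEigenspace_eq_top]
    exact Submodule.mem_top
  refine Submodule.iSup_induction (fun μ => T.maxGenEigenspace μ)
    (motive := fun v => ∃ (N : ℕ) (c : Fin N → ℂ → ℂ) (c' : Fin N → ℂ → ℂ) (x : Fin N → V),
      (∀ i, EP (c i)) ∧ (∀ i t, HasDerivAt (c i) (c' i t) t) ∧
      (∑ i, c i 0 • x i = v) ∧ ∀ t, ∑ i, c' i t • x i = T (∑ i, c i t • x i)) hv ?_ ?_ ?_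
  · intro μ v hv
    rw [Module.End.mem_maxGenEigenspace] at hv
    obtain ⟨k, hk⟩ := hv
    set N : Module.End ℂ V := T - μ • 1 with hN
    refine ⟨k, fun i t => Complex.exp (μ * t) * (t ^ (i : ℕ) * ((i : ℕ).factorial : ℂ)⁻¹),
      fun i t => μ * (Complex.exp (μ * t) * (t ^ (i : ℕ) * ((i : ℕ).factorial : ℂ)⁻¹))
        + Complex.exp (μ * t) * (((i : ℕ) : ℂ) * t ^ ((i : ℕ) - 1) * ((i : ℕ).factorial : ℂ)⁻¹),
      fun i => (N ^ (i : ℕ)) v, ?_, ?_, ?_, ?_⟩
    · intro i
      exact (EP.exp μ).mul ((EP.id.pow _).mul (EP.const _))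
    · intro i t
      have h1 : HasDerivAt (fun t : ℂ => Complex.exp (μ * t)) (Complex.exp (μ * t) * μ) t := by
        have := ((hasDerivAt_id t).const_mul μ).cexp
        simpa using this
      have h2 : HasDerivAt (fun t : ℂ => t ^ (i : ℕ) * ((i : ℕ).factorial : ℂ)⁻¹)
          (((i : ℕ) : ℂ) * t ^ ((i : ℕ) - 1) * ((i : ℕ).factorial : ℂ)⁻¹) t :=
        (hasDerivAt_pow _ t).mul_const _
      refine (h1.mul h2).congr_deriv ?_
      ring
    · simp only [mul_zero, Complex.exp_zero, one_mul]
      cases k with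
      | zero =>
        simp only [pow_zero, Module.End.one_apply] at hk
        simp [hk]
      | succ k =>
        rw [Fin.sum_univ_succ]
        simp
    · intro t
      rw [map_sum]
      have hT : ∀ w, T w = μ • w + N w := by
        intro w
        rw [hN]
        simp
      simp only [map_smul]
      have h1 : ∀ i : Fin k, T ((N ^ (i : ℕ)) v) = μ • (N ^ (i : ℕ)) v + (N ^ ((i : ℕ) + 1)) v := by
        intro i
        rw [hT, pow_succ', Module.End.mul_apply]
      simp only [h1, smul_add, add_smul, Finset.sum_add_distrib]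
      congr 1
      · refine Finset.sum_congr rfl fun i _ => ?_
        rw [smul_smul]
        ring_nf
      · cases k with
        | zero => simp
        | succ k =>
          rw [Fin.sum_univ_succ, Fin.sum_univ_castSucc]
          have h2 : (N ^ ((Fin.last k : ℕ) + 1)) v = 0 := by
            simpa using hk
          rw [h2, smul_zero, add_zero]
          simp only [Fin.val_zero, Nat.cast_zero, zero_mul, mul_zero, zero_smul, zero_add]
          refine Finset.sum_congr rfl fun i _ => ?_
          simp only [Fin.val_succ, Fin.val_castSucc, Nat.add_sub_cancel]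
          congr 1
          rw [Nat.factorial_succ]
          have h3 : ((i : ℕ) : ℂ) + 1 ≠ 0 := Nat.cast_add_one_ne_zero _
          push_cast
          rw [mul_inv]
          field_simp
  · exact ⟨0, fun i => Fin.elim0 i, fun i => Fin.elim0 i, fun i => Fin.elim0 i, fun i => Fin.elim0 i,
      fun i => Fin.elim0 i, by simp, by simp⟩
  · rintro v w ⟨N, c, c', x, h1, h2, h3, h4⟩ ⟨M, d, d', y, k1, k2, k3, k4⟩
    refine ⟨N + M, Fin.append c d, Fin.append c' d', Fin.append x y, ?_, ?_, ?_, ?_⟩
    · intro i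
      refine Fin.addCases (fun i => ?_) (fun i => ?_) i
      · rw [Fin.append_left]; exact h1 i
      · rw [Fin.append_right]; exact k1 i
    · intro i
      refine Fin.addCases (fun i => ?_) (fun i => ?_) i
      · rw [Fin.append_left, Fin.append_left]; exact h2 i
      · rw [Fin.append_right, Fin.append_right]; exact k2 i
    · rw [Fin.sum_univ_add]
      simp only [Fin.append_left, Fin.append_right]
      rw [h3, k3]
    · intro t
      rw [Fin.sum_univ_add, Fin.sum_univ_add]
      simp only [Fin.append_left, Fin.append_right]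
      rw [h4, k4, map_add]

/-- The one-parameter group of a matrix consists of exponential polynomials. -/
theorem exists_exp_flow {n : ℕ} (β : Matrix (Fin n) (Fin n) ℂ) :
    ∃ e : ℂ → Matrix (Fin n) (Fin n) ℂ, e 0 = 1 ∧
      (∀ t i j, HasDerivAt (fun s => e s i j) ((e t * β) i j) t) ∧
      ∀ i j, EP (fun t => e t i j) := by
  classical
  have h1 := fun i : Fin n => exists_exp_sol (Matrix.toLin' β.transpose) (Pi.single i (1 : ℂ))
  choose N c c' x hc hc' h0 hT using h1
  refine ⟨fun t => Matrix.of fun i j => (∑ l, c i l t • x i l) j, ?_, ?_, ?_⟩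
  · ext i j
    simp only [Matrix.of_apply]
    rw [h0 i, Matrix.one_apply, Pi.single_apply]
    simp only [eq_comm]
  · intro t i j
    simp only [Matrix.of_apply]
    have h2 : HasDerivAt (fun s => (∑ l, c i l s • x i l) j) ((∑ l, c' i l t • x i l) j) t := by
      have h3 : (fun s => (∑ l, c i l s • x i l) j) = fun s => ∑ l, c i l s * x i l j := by
        funext s
        rw [Finset.sum_apply]
        rfl
      rw [h3, Finset.sum_apply]
      apply HasDerivAt.fun_sum
      intro l _
      exact (hc' i l t).mul_const _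
    refine h2.congr_deriv ?_
    rw [hT i t, Matrix.toLin'_apply, Matrix.mulVec, Matrix.mul_apply]
    simp only [dotProduct, Matrix.transpose_apply, Matrix.of_apply]
    refine Finset.sum_congr rfl fun k _ => ?_
    ring
  · intro i j
    simp only [Matrix.of_apply]
    have h3 : (fun s => (∑ l, c i l s • x i l) j) = fun s => ∑ l, c i l s * x i l j := by
      funext s
      rw [Finset.sum_apply]
      rfl
    rw [h3]
    exact EP.sum _ fun l _ => (hc i l).mul (EP.const _)

end Pool.Agent.TH143
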