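import Mathlib

/-!
Polynomial vector fields, their solutions, and commuting vector fields.
-/

set_option autoImplicit false

namespace Pool.Agent.TH143

open MvPolynomial Metric Set Filter Topology

/-- A function all of whose derivatives vanish at the centre vanishes on the ball. -/
theorem zero_of_derivs {a : ℂ} {r : ℝ} (p : ℕ → ℂ → ℂ)
    (hp : ∀ k, ∀ z ∈ ball a r, HasDerivAt (p k) (p (k + 1) z) z) (h0 : ∀ k, p k a = 0) :
    ∀ z ∈ ball a r, p 0 z = 0 := by
  intro z hz
  have hr : 0 < r := (dist_nonneg.trans_lt (mem_ball.mp hz))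
  have ha : a ∈ ball a r := mem_ball_self hr
  have hit : ∀ k, ∀ z ∈ ball a r, iteratedDeriv k (p 0) z = p k z := by
    intro k
    induction k with
    | zero => intro z _; simp
    | succ k ih =>
      intro z hz
      rw [iteratedDeriv_succ]
      have h1 : iteratedDeriv k (p 0) =ᶠ[𝓝 z] p k := by
        filter_upwards [isOpen_ball.mem_nhds hz] with w hw
        exact ih w hw
      rw [h1.deriv_eq]
      exact (hp k z hz).deriv
  have hd : DifferentiableOn ℂ (p 0) (ball a r) := fun w hw =>
    (hp 0 w hw).differentiableAt.differentiableWithinAt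
  rw [← Complex.taylorSeries_eq_on_ball' hz hd]
  have : ∀ n : ℕ, ((n.factorial : ℂ)⁻¹ * iteratedDeriv n (p 0) a * (z - a) ^ n) = 0 := by
    intro n
    rw [hit n a ha, h0 n]
    simp
  simp [this]

variable {κ : Type}

/-- chain rule along a solution of a polynomial vector field -/
theorem hasDerivAt_sol (E : κ → MvPolynomial κ ℂ) (v : ℂ → κ → ℂ) (z : ℂ)
    (hv : ∀ l, HasDerivAt (fun w => v w l) (eval (v z) (E l)) z) (P : MvPolynomial κ ℂ) :
    HasDerivAt (fun w => eval (v w) P) (eval (v z) (mkDerivation ℂ E P)) z := by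
  induction P using MvPolynomial.induction_on with
  | C a => simpa using hasDerivAt_const z a
  | add p q hp hq =>
    simp only [map_add]
    exact hp.add hq
  | mul_X p j hp =>
    have h1 : HasDerivAt (fun w => eval (v w) p * v w j) _ z := hp.mul (hv j)
    simp only [map_mul, eval_X]
    refine h1.congr_deriv ?_
    rw [Derivation.leibniz, mkDerivation_X]
    simp only [smul_eq_mul, map_add, map_mul, eval_X]
    ring

/-- two derivations of a polynomial ring which commute on the variables commute -/
theorem comm_of_X {E W : κ → MvPolynomial κ ℂ}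
    (h : ∀ l, mkDerivation ℂ E (W l) = mkDerivation ℂ W (E l)) (P : MvPolynomial κ ℂ) :
    mkDerivation ℂ E (mkDerivation ℂ W P) = mkDerivation ℂ W (mkDerivation ℂ E P) := by
  induction P using MvPolynomial.induction_on with
  | C a => simp
  | add p q hp hq => simp only [map_add, hp, hq]
  | mul_X p j hp =>
    simp only [Derivation.leibniz, mkDerivation_X, smul_eq_mul, map_add, hp, h]
    ring

/-- `v` solves the vector field `E` on `S` -/
def Sol (E : κ → MvPolynomial κ ℂ) (v : ℂ → κ → ℂ) (S : Set ℂ) : Prop :=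
  ∀ z ∈ S, ∀ l, HasDerivAt (fun w => v w l) (eval (v z) (E l)) z

/-- `P` is a relation of `v` on `S` -/
def Rel (v : ℂ → κ → ℂ) (S : Set ℂ) (P : MvPolynomial κ ℂ) : Prop :=
  ∀ z ∈ S, eval (v z) P = 0

theorem Sol.analytic {E : κ → MvPolynomial κ ℂ} {v : ℂ → κ → ℂ} {S : Set ℂ} (hS : IsOpen S)
    (hv : Sol E v S) (P : MvPolynomial κ ℂ) : AnalyticOnNhd ℂ (fun w => eval (v w) P) S := by
  apply DifferentiableOn.analyticOnNhd _ hS
  intro z hz
  exact (hasDerivAt_sol E v z (hv z hz) P).differentiableAt.differentiableWithinAt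

theorem Rel.der {E : κ → MvPolynomial κ ℂ} {v : ℂ → κ → ℂ} {S : Set ℂ} (hS : IsOpen S)
    (hv : Sol E v S) {P : MvPolynomial κ ℂ} (hP : Rel v S P) : Rel v S (mkDerivation ℂ E P) := by
  intro z hz
  have h1 := hasDerivAt_sol E v z (hv z hz) P
  have h2 : (fun w => eval (v w) P) =ᶠ[𝓝 z] fun _ => 0 := by
    filter_upwards [hS.mem_nhds hz] with w hw
    exact hP w hw
  exact (h1.congr_of_eventuallyEq h2.symm).unique (hasDerivAt_const z 0)

/-- If `W` commutes with `E` and the relations are killed by `W` at one point, they are killed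
everywhere. -/
theorem rel_of_point {E W : κ → MvPolynomial κ ℂ} {v : ℂ → κ → ℂ} {S : Set ℂ} (hS : IsOpen S)
    (hSc : IsPreconnected S) (hv : Sol E v S)
    (hc : ∀ l, mkDerivation ℂ E (W l) = mkDerivation ℂ W (E l)) {a : ℂ} (ha : a ∈ S)
    (hW : ∀ P, Rel v S P → eval (v a) (mkDerivation ℂ W P) = 0) (P : MvPolynomial κ ℂ)
    (hP : Rel v S P) : Rel v S (mkDerivation ℂ W P) := by
  obtain ⟨r, hr, hball⟩ := Metric.isOpen_iff.mp hS a ha
  have hPk : ∀ k : ℕ, Rel v S ((mkDerivation ℂ E)^[k] P) := by
    intro k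
    induction k with
    | zero => exact hP
    | succ k ih =>
      rw [Function.iterate_succ_apply']
      exact ih.der hS hv
  have hcomm : ∀ k : ℕ, (mkDerivation ℂ E) (mkDerivation ℂ W ((mkDerivation ℂ E)^[k] P))
      = mkDerivation ℂ W ((mkDerivation ℂ E)^[k + 1] P) := by
    intro k
    rw [Function.iterate_succ_apply', comm_of_X hc]
  have h1 : ∀ z ∈ ball a r, eval (v z) (mkDerivation ℂ W P) = 0 := by
    apply zero_of_derivs
      (fun k z => eval (v z) (mkDerivation ℂ W ((mkDerivation ℂ E)^[k] P)))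
    · intro k z hz
      have := hasDerivAt_sol E v z (hv z (hball hz)) (mkDerivation ℂ W ((mkDerivation ℂ E)^[k] P))
      rw [hcomm] at this
      exact this
    · intro k
      exact hW _ (hPk k)
  have h2 : (fun z => eval (v z) (mkDerivation ℂ W P)) =ᶠ[𝓝 a] 0 := by
    filter_upwards [ball_mem_nhds a hr] with z hz
    exact h1 z hz
  exact fun z hz => (hv.analytic hS _).eqOn_zero_of_preconnected_of_eventuallyEq_zero hSc ha h2 hz

/-- A solution of `W` starting at a point of `v` satisfies all the relations which are preserved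
by `W`. -/
theorem rel_flow {W : κ → MvPolynomial κ ℂ} {v : ℂ → κ → ℂ} {S : Set ℂ}
    (hW : ∀ P, Rel v S P → Rel v S (mkDerivation ℂ W P)) {z : ℂ} (hz : z ∈ S)
    (y : ℂ → κ → ℂ) (hy : Sol W y univ) (hy0 : y 0 = v z) (P : MvPolynomial κ ℂ)
    (hP : Rel v S P) (t : ℂ) : eval (y t) P = 0 := by
  have hPk : ∀ k : ℕ, Rel v S ((mkDerivation ℂ W)^[k] P) := by
    intro k
    induction k with
    | zero => exact hP
    | succ k ih =>
      rw [Function.iterate_succ_apply']
      exact hW _ ih
  have h1 := zero_of_derivs (a := 0) (r := ‖t‖ + 1)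
    (fun k s => eval (y s) ((mkDerivation ℂ W)^[k] P)) (by
      intro k s _
      have := hasDerivAt_sol W y s (hy s (mem_univ s)) ((mkDerivation ℂ W)^[k] P)
      rw [Function.iterate_succ_apply']
      exact this) (by
      intro k
      rw [hy0]
      exact hPk k z hz) t (by simp)
  simpa using h1

end Pool.Agent.TH143
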