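import Mathlib
import Pool.Agent.W602.GT.Der
import Pool.Agent.TH143.Flow

/-!
The ring of holomorphic functions on a domain, and tangent vectors coming from derivations.
-/

set_option autoImplicit false

namespace Pool.Agent.TH143

open MvPolynomial Metric Set Filter Topology

/-- the ring of holomorphic functions on `S` -/
def Hol (S : Set ℂ) : Subalgebra ℂ (S → ℂ) where
  carrier := {f | ∃ F : ℂ → ℂ, AnalyticOnNhd ℂ F S ∧ ∀ z : S, f z = F z}
  mul_mem' := by
    rintro f g ⟨F, hF, hf⟩ ⟨G, hG, hg⟩
    exact ⟨fun z => F z * G z, hF.mul hG, fun z => by rw [Pi.mul_apply, hf, hg]⟩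
  add_mem' := by
    rintro f g ⟨F, hF, hf⟩ ⟨G, hG, hg⟩
    exact ⟨fun z => F z + G z, hF.add hG, fun z => by rw [Pi.add_apply, hf, hg]⟩
  algebraMap_mem' := fun c => ⟨fun _ => c, analyticOnNhd_const, fun _ => rfl⟩

/-- a holomorphic function as an element of the ring -/
def toHol {S : Set ℂ} (F : ℂ → ℂ) (hF : AnalyticOnNhd ℂ F S) : Hol S :=
  ⟨fun z => F z, F, hF, fun _ => rfl⟩

theorem hol_domain {S : Set ℂ} (hSc : IsPreconnected S) (hne : S.Nonempty) : IsDomain (Hol S) := by
  have h1 : NoZeroDivisors (Hol S) := by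
    constructor
    rintro ⟨f, F, hF, hf⟩ ⟨g, G, hG, hg⟩ h
    have h2 : ∀ z ∈ S, F z * G z = 0 := by
      intro z hz
      have := congrFun (congrArg Subtype.val h) ⟨z, hz⟩
      rw [← hf ⟨z, hz⟩, ← hg ⟨z, hz⟩]
      exact this
    rcases AnalyticOnNhd.eq_zero_or_eq_zero_of_mul_eq_zero hF hG h2 hSc with h3 | h3
    · left
      apply Subtype.ext
      funext z
      change f z = 0
      rw [hf, h3 z z.2]
    · right
      apply Subtype.ext
      funext z
      change g z = 0
      rw [hg, h3 z z.2]
  have h2 : Nontrivial (Hol S) := by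
    obtain ⟨z, hz⟩ := hne
    refine ⟨⟨0, 1, fun h => ?_⟩⟩
    have := congrFun (congrArg Subtype.val h) ⟨z, hz⟩
    exact zero_ne_one this
  exact NoZeroDivisors.to_isDomain _

/-- evaluation at a point -/
def evz {S : Set ℂ} (z : S) : Hol S →ₐ[ℂ] ℂ :=
  (Pi.evalAlgHom ℂ (fun _ : S => ℂ) z).comp (Hol S).val

theorem evz_toHol {S : Set ℂ} (z : S) (F : ℂ → ℂ) (hF : AnalyticOnNhd ℂ F S) :
    evz z (toHol F hF) = F z := rfl

theorem hol_ext {S : Set ℂ} {f g : Hol S} (h : ∀ z : S, evz z f = evz z g) : f = g :=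
  Subtype.ext (funext h)

theorem hol_an {S : Set ℂ} (f : Hol S) : ∃ F : ℂ → ℂ, AnalyticOnNhd ℂ F S ∧ ∀ z : S, evz z f = F z :=
  f.2

theorem der_of_transcendental {L K : Type} [Field L] [Field K] [Algebra L K] [CharZero L] {g : K}
    (hg : Transcendental L g) : ∃ D : Derivation L K K, D g = 1 := by
  classical
  have h1 : AlgebraicIndepOn L id ({g} : Set K) := by
    have := (algebraicIndependent_unique_type_iff (R := L) (x := fun i : ({g} : Set K) => id i.1)).mpr
    apply this
    exact hg
  obtain ⟨t, hst, ht⟩ := exists_isTranscendenceBasis_superset h1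
  obtain ⟨D, hD⟩ := Pool.Agent.W602.GT.exists_der (fun i : t => i.1) ht (fun _ => 1)
  exact ⟨D, hD ⟨g, hst (mem_singleton g)⟩⟩

/-- A derivation over a subring which does not kill a given transcendental element. -/
theorem exists_D {B R K : Type} [CommRing B] [IsDomain B] [CharZero B] [CommRing R] [Field K]
    [Algebra R K] (φ : B →+* R) (hφ : Function.Injective φ)
    (hK : Function.Injective (algebraMap R K)) (g : K)
    (hg : ∀ p : Polynomial B, p.eval₂ ((algebraMap R K).comp φ) g = 0 → p = 0) :
    ∃ D : K → K, (∀ x y, D (x + y) = D x + D y) ∧ (∀ x y, D (x * y) = x * D y + y * D x) ∧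
      (∀ b : B, D (algebraMap R K (φ b)) = 0) ∧ D g = 1 := by
  let _ : Algebra B K := ((algebraMap R K).comp φ).toAlgebra
  have hinj : Function.Injective (algebraMap B K) := hK.comp hφ
  have hfs : FaithfulSMul B K := (faithfulSMul_iff_algebraMap_injective _ _).2 hinj
  let L := FractionRing B
  let _ : Algebra L K := FractionRing.liftAlgebra B K
  have hst : IsScalarTower B L K := inferInstance
  have hcL : CharZero L := charZero_of_injective_algebraMap (IsFractionRing.injective B L)
  have htr : Transcendental L g := by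
    intro halg
    have h1 : IsAlgebraic B g := (IsFractionRing.isAlgebraic_iff B L K).mpr halg
    obtain ⟨p, hp0, hp⟩ := h1
    exact hp0 (hg p hp)
  obtain ⟨D, hD⟩ := der_of_transcendental htr
  refine ⟨D, fun x y => map_add D x y, fun x y => D.leibniz x y, fun b => ?_, hD⟩
  have h1 : algebraMap R K (φ b) = algebraMap L K (algebraMap B L b) := by
    rw [← IsScalarTower.algebraMap_apply B L K]
    rfl
  rw [h1, D.map_algebraMap]

end Pool.Agent.TH143
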