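import Mathlib
import Pool.Agent.TH143.Hol

/-!
Tangent vectors to the closure of a family of holomorphic functions.
-/

set_option autoImplicit false

namespace Pool.Agent.TH143

open MvPolynomial Metric Set Filter Topology

theorem exists_tangent_aux {S : Set ℂ} (hdom : IsDomain (Hol S))
    {K : Type} [Field K] [Algebra (Hol S) K] [IsFractionRing (Hol S) K]
    {ι σ : Type} [Fintype σ] (B : Subalgebra ℂ (Hol S)) (v : ι ⊕ σ → Hol S)
    (hvB : ∀ i, v (Sum.inl i) ∈ B) (G0 G1 : MvPolynomial (ι ⊕ σ) ℂ) (hG0 : aeval v G0 ≠ 0)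
    (hNA : ∀ (m : ℕ) (c : ℕ → B),
      ∑ k ∈ Finset.range (m + 1), (c k : Hol S) * (aeval v G1) ^ k * (aeval v G0) ^ (m - k) = 0 →
      ∀ k ≤ m, c k = 0) :
    ∃ (a : S) (M : σ → ℂ), ∀ W : ι ⊕ σ → MvPolynomial (ι ⊕ σ) ℂ,
      (∀ i, eval (fun l => evz a (v l)) (W (Sum.inl i)) = 0) →
      (∀ l, eval (fun l => evz a (v l)) (W (Sum.inr l)) = M l) →
      (∀ P, aeval v P = 0 → eval (fun l => evz a (v l)) (mkDerivation ℂ W P) = 0) ∧
      eval (fun l => evz a (v l)) (mkDerivation ℂ W G1) * eval (fun l => evz a (v l)) G0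
        - eval (fun l => evz a (v l)) G1 * eval (fun l => evz a (v l)) (mkDerivation ℂ W G0)
        ≠ 0 := by
  classical
  have hdomB : IsDomain B := inferInstance
  have hcB : CharZero B := charZero_of_injective_algebraMap ((algebraMap ℂ B).injective)
  set g0 : K := algebraMap (Hol S) K (aeval v G0) with hg0
  set g1 : K := algebraMap (Hol S) K (aeval v G1) with hg1
  have hg0' : g0 ≠ 0 := by
    rw [hg0]
    intro h
    exact hG0 ((IsFractionRing.injective (Hol S) K) (by rw [h, map_zero]))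
  obtain ⟨D, hDadd, hDmul, hDB', hD⟩ := exists_D (B := B) (R := Hol S) (K := K) B.val.toRingHom
    Subtype.val_injective (IsFractionRing.injective (Hol S) K) (g1 / g0) (by
    intro p hp
    have h2 : ∑ k ∈ Finset.range (p.natDegree + 1), ((p.coeff k : B) : Hol S) * (aeval v G1) ^ k
        * (aeval v G0) ^ (p.natDegree - k) = 0 := by
      apply IsFractionRing.injective (Hol S) K
      rw [map_zero, map_sum]
      have h3 : ∀ k ∈ Finset.range (p.natDegree + 1),
          algebraMap (Hol S) K (((p.coeff k : B) : Hol S) * (aeval v G1) ^ k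
            * (aeval v G0) ^ (p.natDegree - k))
          = g0 ^ p.natDegree * (algebraMap (Hol S) K (p.coeff k : B) * (g1 / g0) ^ k) := by
        intro k hk
        have hk' : k ≤ p.natDegree := Nat.lt_succ_iff.mp (Finset.mem_range.mp hk)
        rw [map_mul, map_mul, map_pow, map_pow, ← hg0, ← hg1, div_pow]
        have h4 : g0 ^ p.natDegree = g0 ^ (p.natDegree - k) * g0 ^ k := by
          rw [← pow_add, Nat.sub_add_cancel hk']
        have h5 := pow_ne_zero k hg0'
        rw [h4]
        field_simp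
      rw [Finset.sum_congr rfl h3, ← Finset.mul_sum]
      rw [Polynomial.eval₂_eq_sum_range] at hp
      have h6 : ∀ k, algebraMap (Hol S) K (p.coeff k : B)
          = ((algebraMap (Hol S) K).comp B.val.toRingHom) (p.coeff k) := fun k => rfl
      simp only [h6]
      rw [hp, mul_zero]
    have h3 := hNA p.natDegree (fun k => p.coeff k) h2 p.natDegree le_rfl
    exact Polynomial.leadingCoeff_eq_zero.mp h3)
  obtain ⟨s, hs⟩ := IsLocalization.exist_integer_multiples_of_finset (nonZeroDivisors (Hol S))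
    (Finset.univ.image (fun l : σ => D (algebraMap (Hol S) K (v (Sum.inr l)))))
  have hs' : ∀ l : σ, ∃ h : Hol S, algebraMap (Hol S) K h
      = algebraMap (Hol S) K s * D (algebraMap (Hol S) K (v (Sum.inr l))) := by
    intro l
    obtain ⟨h, hh⟩ := hs _ (Finset.mem_image_of_mem _ (Finset.mem_univ l))
    refine ⟨h, ?_⟩
    rw [hh, Algebra.smul_def]
  choose h hh using hs'
  have hDB : ∀ x ∈ B, D (algebraMap (Hol S) K x) = 0 := fun x hx => hDB' ⟨x, hx⟩
  -- the main induction
  have key : ∀ P : MvPolynomial (ι ⊕ σ) ℂ, ∃ H : Hol S,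
      algebraMap (Hol S) K H = algebraMap (Hol S) K s * D (algebraMap (Hol S) K (aeval v P)) ∧
      ∀ (a : S) (W : ι ⊕ σ → MvPolynomial (ι ⊕ σ) ℂ),
        (∀ i, eval (fun l => evz a (v l)) (W (Sum.inl i)) = 0) →
        (∀ l, eval (fun l => evz a (v l)) (W (Sum.inr l)) = evz a (h l)) →
        evz a H = eval (fun l => evz a (v l)) (mkDerivation ℂ W P) := by
    intro P
    induction P using MvPolynomial.induction_on with
    | C c =>
      refine ⟨0, ?_, ?_⟩
      · rw [map_zero, algHom_C]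
        have h1 : D (algebraMap (Hol S) K (algebraMap ℂ (Hol S) c)) = 0 :=
          hDB _ (B.algebraMap_mem c)
        rw [h1, mul_zero]
      · intro a W _ _
        simp
    | add p q hp hq =>
      obtain ⟨H1, h1, h1'⟩ := hp
      obtain ⟨H2, h2, h2'⟩ := hq
      refine ⟨H1 + H2, ?_, ?_⟩
      · rw [map_add, h1, h2, map_add, map_add, hDadd]
        ring
      · intro a W hW1 hW2
        rw [map_add, h1' a W hW1 hW2, h2' a W hW1 hW2, map_add, map_add]
    | mul_X p j hp =>
      obtain ⟨H1, h1, h1'⟩ := hp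
      obtain ⟨H2, h2, h2'⟩ : ∃ H2 : Hol S,
          algebraMap (Hol S) K H2 = algebraMap (Hol S) K s * D (algebraMap (Hol S) K (v j)) ∧
          ∀ (a : S) (W : ι ⊕ σ → MvPolynomial (ι ⊕ σ) ℂ),
            (∀ i, eval (fun l => evz a (v l)) (W (Sum.inl i)) = 0) →
            (∀ l, eval (fun l => evz a (v l)) (W (Sum.inr l)) = evz a (h l)) →
            evz a H2 = eval (fun l => evz a (v l)) (W j) := by
        rcases j with i | l
        · refine ⟨0, ?_, ?_⟩
          · rw [map_zero, hDB _ (hvB i), mul_zero]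
          · intro a W hW1 _
            rw [map_zero, hW1]
        · refine ⟨h l, hh l, ?_⟩
          intro a W _ hW2
          rw [hW2]
      refine ⟨H1 * v j + aeval v p * H2, ?_, ?_⟩
      · rw [map_add, map_mul, map_mul, h1, h2, map_mul, aeval_X, map_mul, hDmul]
        ring
      · intro a W hW1 hW2
        rw [map_add, map_mul, map_mul, h1' a W hW1 hW2, h2' a W hW1 hW2, Derivation.leibniz,
          mkDerivation_X]
        simp only [smul_eq_mul, map_add, map_mul, eval_X]
        have h3 : evz a (aeval v p) = eval (fun l => evz a (v l)) p := by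
          have h4 := MvPolynomial.comp_aeval_apply (f := v) (evz a) p
          rw [h4, ← MvPolynomial.aeval_eq_eval]
        rw [h3]
        ring
  have hev : ∀ (a : S) (P : MvPolynomial (ι ⊕ σ) ℂ),
      evz a (aeval v P) = eval (fun l => evz a (v l)) P := by
    intro a p
    have h4 := MvPolynomial.comp_aeval_apply (f := v) (evz a) p
    rw [h4, ← MvPolynomial.aeval_eq_eval]
  have hs0 : (s : Hol S) * (aeval v G0) ^ 2 ≠ 0 :=
    mul_ne_zero (nonZeroDivisors.ne_zero s.2) (pow_ne_zero _ hG0)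
  obtain ⟨a, ha⟩ : ∃ a : S, evz a ((s : Hol S) * (aeval v G0) ^ 2) ≠ 0 := by
    by_contra hcon
    push Not at hcon
    exact hs0 (hol_ext fun z => by rw [hcon z, map_zero])
  refine ⟨a, fun l => evz a (h l), fun W hW1 hW2 => ⟨fun P hP => ?_, ?_⟩⟩
  · obtain ⟨H, hH, hH'⟩ := key P
    rw [← hH' a W hW1 hW2]
    have hD0 : D 0 = 0 := by
      have := hDadd 0 0
      rw [add_zero] at this
      linear_combination - this
    rw [hP, map_zero, hD0, mul_zero] at hH
    have : H = 0 := (IsFractionRing.injective (Hol S) K) (by rw [hH, map_zero])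
    rw [this, map_zero]
  · obtain ⟨H1, hH1, hH1'⟩ := key G1
    obtain ⟨H0, hH0, hH0'⟩ := key G0
    rw [← hH1' a W hW1 hW2, ← hH0' a W hW1 hW2, ← hev, ← hev, ← map_mul, ← map_mul, ← map_sub]
    have h1 : H1 * aeval v G0 - aeval v G1 * H0 = (s : Hol S) * (aeval v G0) ^ 2 := by
      apply IsFractionRing.injective (Hol S) K
      rw [map_sub, map_mul, map_mul, map_mul, map_pow, hH1, hH0, ← hg0, ← hg1]
      have h2 : g1 = (g1 / g0) * g0 := by field_simp
      have h3 : D g1 = (g1 / g0) * D g0 + g0 := by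
        conv_lhs => rw [h2]
        rw [hDmul, hD]
        ring
      rw [h3]
      field_simp
      ring
    rw [h1]
    exact ha

theorem exists_tangent {S : Set ℂ} (hSc : IsPreconnected S) (hne : S.Nonempty)
    {ι σ : Type} [Fintype σ] (B : Subalgebra ℂ (Hol S)) (v : ι ⊕ σ → Hol S)
    (hvB : ∀ i, v (Sum.inl i) ∈ B) (G0 G1 : MvPolynomial (ι ⊕ σ) ℂ) (hG0 : aeval v G0 ≠ 0)
    (hNA : ∀ (m : ℕ) (c : ℕ → B),
      ∑ k ∈ Finset.range (m + 1), (c k : Hol S) * (aeval v G1) ^ k * (aeval v G0) ^ (m - k) = 0 →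
      ∀ k ≤ m, c k = 0) :
    ∃ (a : S) (M : σ → ℂ), ∀ W : ι ⊕ σ → MvPolynomial (ι ⊕ σ) ℂ,
      (∀ i, eval (fun l => evz a (v l)) (W (Sum.inl i)) = 0) →
      (∀ l, eval (fun l => evz a (v l)) (W (Sum.inr l)) = M l) →
      (∀ P, aeval v P = 0 → eval (fun l => evz a (v l)) (mkDerivation ℂ W P) = 0) ∧
      eval (fun l => evz a (v l)) (mkDerivation ℂ W G1) * eval (fun l => evz a (v l)) G0
        - eval (fun l => evz a (v l)) G1 * eval (fun l => evz a (v l)) (mkDerivation ℂ W G0)
        ≠ 0 := by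
  have hdom : IsDomain (Hol S) := hol_domain hSc hne
  exact exists_tangent_aux hdom (K := FractionRing (Hol S)) B v hvB G0 G1 hG0 hNA

end Pool.Agent.TH143
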