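import Mathlib
import Pool.Agent.TH143.Tan
import Pool.Agent.TH143.ExpMat

/-!
Rational curves through the points of a curve given by solutions of linear differential equations:
the local theorem.
-/

set_option autoImplicit false

namespace Pool.Agent.TH143

open MvPolynomial Metric Set Filter Topology
open Pool.Agent.H159R3.Exp (Laur)

section defs

variable {ι : Type} {n : ℕ}

/-- coefficients and entries of the fundamental matrix -/
def vv (b : ι → ℂ → ℂ) (U : ℂ → Matrix (Fin n) (Fin n) ℂ) (z : ℂ) : ι ⊕ (Fin n × Fin n) → ℂ :=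
  Sum.elim (fun i => b i z) (fun p => U z p.1 p.2)

/-- the system -/
noncomputable def EE (d : ι → ι) (A : Fin n → Fin n → ι) :
    ι ⊕ (Fin n × Fin n) → MvPolynomial (ι ⊕ (Fin n × Fin n)) ℂ :=
  Sum.elim (fun i => X (Sum.inl (d i)))
    (fun p => ∑ k, X (Sum.inl (A p.1 k)) * X (Sum.inr (k, p.2)))

/-- the right translation -/
noncomputable def WW (β : Matrix (Fin n) (Fin n) ℂ) :
    ι ⊕ (Fin n × Fin n) → MvPolynomial (ι ⊕ (Fin n × Fin n)) ℂ :=
  Sum.elim (fun _ => 0) (fun p => ∑ k, X (Sum.inr (p.1, k)) * C (β k p.2))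

theorem comm_EW (d : ι → ι) (A : Fin n → Fin n → ι) (β : Matrix (Fin n) (Fin n) ℂ)
    (l : ι ⊕ (Fin n × Fin n)) :
    mkDerivation ℂ (EE d A) (WW β l) = mkDerivation ℂ (WW β) (EE d A l) := by
  rcases l with i | ⟨i, j⟩
  · simp [WW, EE, mkDerivation_X]
  · simp only [WW, EE, Sum.elim_inr, map_sum, Derivation.leibniz, mkDerivation_X, smul_eq_mul,
      Sum.elim_inl, mul_zero, add_zero, derivation_C, zero_add, Finset.mul_sum]
    rw [Finset.sum_comm]
    refine Finset.sum_congr rfl fun k _ => Finset.sum_congr rfl fun k' _ => ?_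
    ring

end defs

theorem local_curve {S : Set ℂ} (hS : IsOpen S) (hSc : IsPreconnected S) (hne : S.Nonempty)
    {ι : Type} (b : ι → ℂ → ℂ) (hb : ∀ i, AnalyticOnNhd ℂ (b i) S) (d : ι → ι)
    (hd : ∀ i, ∀ z ∈ S, HasDerivAt (b i) (b (d i) z) z)
    {n : ℕ} (A : Fin n → Fin n → ι) (U : ℂ → Matrix (Fin n) (Fin n) ℂ)
    (hU : ∀ z ∈ S, ∀ i j, HasDerivAt (fun w => U w i j) (∑ k, b (A i k) z * U z k j) z)
    (hdet : ∀ z ∈ S, (U z).det ≠ 0)
    (B : Subalgebra ℂ (Hol S)) (hB : ∀ i, toHol (b i) (hb i) ∈ B)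
    {N : ℕ} (Φ : Fin (N + 1) → MvPolynomial (ι ⊕ (Fin n × Fin n)) ℂ) (j0 j1 : Fin (N + 1))
    (hj0 : ∃ z ∈ S, eval (vv b U z) (Φ j0) ≠ 0)
    (hNA : ∀ (m : ℕ) (c : ℕ → B), (∀ z : S, ∑ k ∈ Finset.range (m + 1),
      evz z (c k : Hol S) * (eval (vv b U z) (Φ j1)) ^ k * (eval (vv b U z) (Φ j0)) ^ (m - k) = 0) →
      ∀ k ≤ m, c k = 0)
    (Q : MvPolynomial (Fin (N + 1)) ℂ) (iq : ι)
    (hQ : ∀ z ∈ S, eval (fun j => eval (vv b U z) (Φ j)) Q ≠ 0)
    (hQ' : ∀ z ∈ S, HasDerivAt (fun w => eval (fun j => eval (vv b U w) (Φ j)) Q)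
      (b iq z * eval (fun j => eval (vv b U z) (Φ j)) Q) z)
    (z0 : ℂ) (hz0 : z0 ∈ S) :
    ∀ᶠ z in 𝓝[≠] z0, ∃ w : ℂ → Fin (N + 1) → ℂ, (∀ j, Laur (fun t => w t j)) ∧
      (∀ j, w 1 j = eval (vv b U z) (Φ j)) ∧ (∀ t, t ≠ 0 → eval (w t) Q ≠ 0) ∧
      (∃ t, t ≠ 0 ∧ w t j1 * w 1 j0 ≠ w t j0 * w 1 j1) ∧
      ∀ R : MvPolynomial (Fin (N + 1)) ℂ,
        (∀ z ∈ S, eval (fun j => eval (vv b U z) (Φ j)) R = 0) → ∀ t, t ≠ 0 → eval (w t) R = 0 := by
  classical
  set v := vv b U with hv
  -- the system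
  have hsol : Sol (EE d A) v S := by
    intro z hz l
    rcases l with i | ⟨i, j⟩
    · have := hd i z hz
      simpa [EE, v, vv] using this
    · have := hU z hz i j
      simpa [EE, v, vv] using this
  have hvan : ∀ l, AnalyticOnNhd ℂ (fun z => v z l) S := by
    intro l
    have := hsol.analytic hS (X l)
    simpa using this
  let V : ι ⊕ (Fin n × Fin n) → Hol S := fun l => toHol (fun z => v z l) (hvan l)
  have hVe : ∀ (z : S), (fun l => evz z (V l)) = v z := fun z => rfl
  have hVP : ∀ (z : S) (P : MvPolynomial (ι ⊕ (Fin n × Fin n)) ℂ),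
      evz z (aeval V P) = eval (v z) P := by
    intro z P
    have h4 := MvPolynomial.comp_aeval_apply (f := V) (evz z) P
    rw [h4, ← MvPolynomial.aeval_eq_eval]
    rfl
  have hrel : ∀ P, Rel v S P ↔ aeval V P = 0 := by
    intro P
    constructor
    · intro h
      exact hol_ext fun z => by rw [hVP, map_zero]; exact h z z.2
    · intro h z hz
      rw [← hVP ⟨z, hz⟩, h, map_zero]
  obtain ⟨a, M, haM⟩ := exists_tangent hSc hne B V (fun i => hB i) (Φ j0) (Φ j1) (by
      obtain ⟨z, hz, h⟩ := hj0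
      intro h0
      apply h
      rw [← hVP ⟨z, hz⟩, h0, map_zero]) (by
      intro m c hc
      apply hNA m c
      intro z
      have h1 := congrArg (evz z) hc
      rw [map_sum, map_zero] at h1
      rw [← h1]
      refine Finset.sum_congr rfl fun k _ => ?_
      rw [map_mul, map_mul, map_pow, map_pow, hVP, hVP])
  set β : Matrix (Fin n) (Fin n) ℂ := (U a)⁻¹ * Matrix.of fun i j => M (i, j) with hβ
  have hUβ : ∀ p : Fin n × Fin n, (U a * β) p.1 p.2 = M p := by
    intro p
    rw [hβ, ← Matrix.mul_assoc, Matrix.mul_nonsing_inv _ ((hdet a a.2).isUnit), Matrix.one_mul]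
    rfl
  obtain ⟨haP, haG⟩ := haM (WW β) (fun i => by simp [WW]) (fun p => by
    rw [← hUβ p, Matrix.mul_apply]
    simp only [WW, Sum.elim_inr, map_sum, map_mul, eval_X, eval_C]
    rfl)
  rw [hVe] at haG haP
  have hδ : ∀ P, Rel v S P → Rel v S (mkDerivation ℂ (WW β) P) :=
    rel_of_point hS hSc hsol (comm_EW d A β) a.2 (fun P hP => haP P ((hrel P).mp hP))
  -- the function which must not vanish
  have hwan : AnalyticOnNhd ℂ (fun z => eval (v z) (mkDerivation ℂ (WW β) (Φ j1))
      * eval (v z) (Φ j0) - eval (v z) (Φ j1) * eval (v z) (mkDerivation ℂ (WW β) (Φ j0))) S :=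
    ((hsol.analytic hS _).mul (hsol.analytic hS _)).sub
      ((hsol.analytic hS _).mul (hsol.analytic hS _))
  have hev : ∀ᶠ z in 𝓝[≠] z0, eval (v z) (mkDerivation ℂ (WW β) (Φ j1))
      * eval (v z) (Φ j0) - eval (v z) (Φ j1) * eval (v z) (mkDerivation ℂ (WW β) (Φ j0)) ≠ 0 := by
    rcases (hwan z0 hz0).eventually_eq_zero_or_eventually_ne_zero with h | h
    · exfalso
      exact haG (hwan.eqOn_zero_of_preconnected_of_eventuallyEq_zero hSc hz0 h a.2)
    · exact h
  have hevS : ∀ᶠ z in 𝓝[≠] z0, z ∈ S := (hS.mem_nhds hz0 |> fun h => mem_nhdsWithin_of_mem_nhds h)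
  filter_upwards [hev, hevS] with z hzw hzS
  -- the exponential polynomial curve
  obtain ⟨e, he0, he, hEP⟩ := exists_exp_flow β
  let y : ℂ → ι ⊕ (Fin n × Fin n) → ℂ := fun t =>
    Sum.elim (fun i => b i z) (fun p => (U z * e t) p.1 p.2)
  have hy0 : y 0 = v z := by
    simp only [y, he0, Matrix.mul_one]
    rfl
  have hysol : Sol (WW β) y univ := by
    intro t _ l
    rcases l with i | ⟨i, j⟩
    · simp only [y, Sum.elim_inl, WW, map_zero]
      exact hasDerivAt_const t _
    · simp only [y, Sum.elim_inr, WW, map_sum, map_mul, eval_X, eval_C]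
      have h1 : HasDerivAt (fun s => (U z * e s) i j) (∑ k, U z i k * (e t * β) k j) t := by
        simp only [Matrix.mul_apply]
        apply HasDerivAt.fun_sum
        intro k _
        have := (he t k j).const_mul (U z i k)
        rw [Matrix.mul_apply] at this
        exact this
      refine h1.congr_deriv ?_
      rw [← Matrix.mul_apply, ← Matrix.mul_assoc, Matrix.mul_apply]
  have hyP : ∀ P, Rel v S P → ∀ t, eval (y t) P = 0 := fun P hP t =>
    rel_flow hδ hzS y hysol hy0 P hP t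
  have hyEP : ∀ l, EP (fun t => y t l) := by
    intro l
    rcases l with i | ⟨i, j⟩
    · exact EP.const _
    · simp only [y, Sum.elim_inr, Matrix.mul_apply]
      exact EP.sum _ fun k _ => (EP.const _).mul (hEP k j)
  -- the boundary
  set q := bind₁ Φ Q with hq
  have hqe : ∀ x : ι ⊕ (Fin n × Fin n) → ℂ, eval x q = eval (fun j => eval x (Φ j)) Q := by
    intro x
    rw [hq, eval, eval₂Hom_bind₁]
    rfl
  have hR1 : Rel v S (mkDerivation ℂ (EE d A) q - X (Sum.inl iq) * q) := by
    intro s hs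
    have h1 := hasDerivAt_sol (EE d A) v s (hsol s hs) q
    have h2 := hQ' s hs
    simp only [← hqe] at h2
    have h3 := h1.unique h2
    rw [map_sub, map_mul, h3, eval_X]
    exact sub_self _
  have hR2 : Rel v S (mkDerivation ℂ (EE d A) (mkDerivation ℂ (WW β) q)
      - X (Sum.inl iq) * mkDerivation ℂ (WW β) q) := by
    have h1 := hδ _ hR1
    rw [map_sub, Derivation.leibniz, mkDerivation_X, ← comm_of_X (comm_EW d A β)] at h1
    simpa [WW] using h1
  obtain ⟨γ, hγ⟩ : ∃ γ : ℂ, Rel v S (mkDerivation ℂ (WW β) q - C γ * q) := by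
    have hqn : ∀ s ∈ S, eval (v s) q ≠ 0 := fun s hs => by rw [hqe]; exact hQ s hs
    have h1 : ∀ s ∈ S, HasDerivAt (fun s => eval (v s) (mkDerivation ℂ (WW β) q) / eval (v s) q)
        0 s := by
      intro s hs
      have h2 := hasDerivAt_sol (EE d A) v s (hsol s hs) (mkDerivation ℂ (WW β) q)
      have h3 := hasDerivAt_sol (EE d A) v s (hsol s hs) q
      refine (h2.div h3 (hqn s hs)).congr_deriv ?_
      have h4 := hR1 s hs
      have h5 := hR2 s hs
      rw [map_sub, map_mul, eval_X, sub_eq_zero] at h4 h5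
      rw [h4, h5, div_eq_zero_iff]
      left
      ring
    refine ⟨eval (v z) (mkDerivation ℂ (WW β) q) / eval (v z) q, ?_⟩
    intro s hs
    have h6 : eval (v s) (mkDerivation ℂ (WW β) q) / eval (v s) q
        = eval (v z) (mkDerivation ℂ (WW β) q) / eval (v z) q := by
      have h7 : DifferentiableOn ℂ
          (fun s => eval (v s) (mkDerivation ℂ (WW β) q) / eval (v s) q) S :=
        fun s hs => (h1 s hs).differentiableAt.differentiableWithinAt
      have h8 : EqOn (deriv (fun s => eval (v s) (mkDerivation ℂ (WW β) q) / eval (v s) q)) 0 S :=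
        fun s hs => (h1 s hs).deriv
      exact hS.is_const_of_deriv_eq_zero hSc h7 h8 hs hzS
    rw [map_sub, map_mul, eval_C, ← h6, div_mul_cancel₀ _ (hqn s hs), sub_self]
  set q0 := eval (v z) q with hq0
  have hq0n : q0 ≠ 0 := by rw [hq0, hqe]; exact hQ z hzS
  have hqt : ∀ t, eval (y t) q = q0 * Complex.exp (γ * t) := by
    have h1 : ∀ t, HasDerivAt (fun t => eval (y t) q * Complex.exp (-γ * t)) 0 t := by
      intro t
      have h2 := hasDerivAt_sol (WW β) y t (hysol t (mem_univ t)) q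
      have h3 : HasDerivAt (fun t : ℂ => Complex.exp (-γ * t)) (Complex.exp (-γ * t) * (-γ)) t := by
        have := ((hasDerivAt_id t).const_mul (-γ)).cexp
        simpa using this
      refine (h2.mul h3).congr_deriv ?_
      have h4 := hyP _ hγ t
      rw [map_sub, map_mul, eval_C, sub_eq_zero] at h4
      rw [h4]
      ring
    intro t
    have h5 := is_const_of_deriv_eq_zero (fun t => (h1 t).differentiableAt)
      (fun t => (h1 t).deriv) t 0
    simp only [hy0, mul_zero, Complex.exp_zero, mul_one] at h5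
    rw [hq0, ← h5, mul_assoc, ← Complex.exp_add]
    simp
  -- the list of coordinates
  let G : Fin (N + 2) → ℂ → ℂ := Fin.cons (fun t => q0⁻¹ * Complex.exp (-γ * t))
    (fun j t => eval (y t) (Φ j))
  have hGEP : ∀ j, EP (G j) := by
    intro j
    refine Fin.cases ?_ (fun j => ?_) j
    · exact (EP.const _).mul (EP.exp _)
    · exact EP.eval hyEP (Φ j)
  obtain ⟨m, g, P, hg, hP⟩ := EP.common G hGEP
  have hPf : ∀ j, G j = fun t => eval (Pool.Agent.H159R3.Exp.vec g t) (P j) := fun j =>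
    funext (hP j)
  have hG0 : ∀ j : Fin (N + 1), G j.succ 0 = eval (v z) (Φ j) := by
    intro j
    simp only [G, Fin.cons_succ, hy0]
  let wt : Fin (N + 2) → ℂ := Fin.cons 0 (fun j => (if j = j1 then eval (v z) (Φ j0) else 0)
    - (if j = j0 then eval (v z) (Φ j1) else 0))
  have hwt : ∀ x : Fin (N + 2) → ℂ, ∑ j, wt j * x j
      = eval (v z) (Φ j0) * x j1.succ - eval (v z) (Φ j1) * x j0.succ := by
    intro x
    rw [Fin.sum_univ_succ]
    simp only [wt, Fin.cons_zero, zero_mul, zero_add, Fin.cons_succ, sub_mul, ite_mul,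
      Finset.sum_sub_distrib, Finset.sum_ite_eq', Finset.mem_univ, if_true]
  have hder : deriv (fun t => ∑ j, wt j * eval (Pool.Agent.H159R3.Exp.vec g t) (P j)) 0 ≠ 0 := by
    have h1 : (fun t => ∑ j, wt j * eval (Pool.Agent.H159R3.Exp.vec g t) (P j))
        = fun t => eval (v z) (Φ j0) * eval (y t) (Φ j1) - eval (v z) (Φ j1) * eval (y t) (Φ j0) := by
      funext t
      have h2 : ∑ j, wt j * eval (Pool.Agent.H159R3.Exp.vec g t) (P j) = ∑ j, wt j * G j t :=
        Finset.sum_congr rfl fun j _ => by rw [hP]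
      rw [h2, hwt (fun j => G j t)]
      rfl
    rw [h1]
    have h3 := hasDerivAt_sol (WW β) y 0 (hysol 0 (mem_univ 0)) (Φ j1)
    have h4 := hasDerivAt_sol (WW β) y 0 (hysol 0 (mem_univ 0)) (Φ j0)
    have h5 := (h3.const_mul (eval (v z) (Φ j0))).fun_sub (h4.const_mul (eval (v z) (Φ j1)))
    rw [hy0] at h5
    rw [h5.deriv]
    intro h6
    apply hzw
    rw [← h6]
    ring
  obtain ⟨w, hw, hw1, ⟨t1, ht1, hwt1⟩, hwF⟩ := Pool.Agent.H159R3.Exp.curve g hg P wt 0 hder
  have hw1' : ∀ j : Fin (N + 1), w 1 j.succ = eval (v z) (Φ j) := by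
    intro j
    rw [hw1, ← hP, hG0]
  refine ⟨fun t j => w t j.succ, fun j => hw _, hw1', ?_, ⟨t1, ht1, ?_⟩, ?_⟩
  · intro t ht hcon
    have h1 := hwF (X 0 * rename Fin.succ Q - 1) (by
      intro s
      rw [map_sub, map_mul, eval_X, map_one, eval_rename, sub_eq_zero]
      have h2 : (fun j => eval (Pool.Agent.H159R3.Exp.vec g s) (P j)) ∘ Fin.succ
          = fun j => eval (y s) (Φ j) := by
        funext j
        simp only [Function.comp]
        rw [← hP]
        rfl
      rw [h2, ← hP, ← hqe, hqt]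
      simp only [G, Fin.cons_zero]
      have h3 : Complex.exp (-γ * s) * Complex.exp (γ * s) = 1 := by
        rw [← Complex.exp_add]
        simp
      have h4 : q0⁻¹ * q0 = 1 := inv_mul_cancel₀ hq0n
      linear_combination h3 + h4 * (Complex.exp (-γ * s) * Complex.exp (γ * s))) t ht
    rw [map_sub, map_mul, eval_X, map_one, eval_rename] at h1
    have h2 : w t ∘ Fin.succ = fun j => w t j.succ := rfl
    rw [h2, hcon, mul_zero, zero_sub] at h1
    exact one_ne_zero (neg_eq_zero.mp h1)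
  · intro hcon
    apply hwt1
    rw [hwt, hwt, hw1', hw1']
    have hcon' : w t1 j1.succ * w 1 j0.succ = w t1 j0.succ * w 1 j1.succ := hcon
    rw [hw1', hw1'] at hcon'
    linear_combination hcon'
  · intro R hR t ht
    have h1 := hwF (rename Fin.succ R) (by
      intro s
      rw [eval_rename]
      have h2 : (fun j => eval (Pool.Agent.H159R3.Exp.vec g s) (P j)) ∘ Fin.succ
          = fun j => eval (y s) (Φ j) := by
        funext j
        simp only [Function.comp]
        rw [← hP]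
        rfl
      rw [h2]
      have h3 := hyP (bind₁ Φ R) (by
        intro x hx
        rw [eval, eval₂Hom_bind₁]
        exact hR x hx) s
      rw [eval, eval₂Hom_bind₁] at h3
      exact h3) t ht
    rw [eval_rename] at h1
    exact h1

end Pool.Agent.TH143
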