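import Mathlib

/-!
Local existence of a fundamental matrix of a holomorphic linear system.
-/

set_option autoImplicit false

namespace Pool.Agent.TH143

open Metric Set Filter Topology

theorem exists_prim {E : Type} [NormedAddCommGroup E] [NormedSpace ℂ E] [CompleteSpace E]
    {a : ℂ} {r : ℝ} (f : ℂ → E) (hf : DifferentiableOn ℂ f (ball a r)) :
    ∃ g : ℂ → E, g a = 0 ∧ ∀ z ∈ ball a r, HasDerivAt g (f z) z := by
  obtain ⟨g, hg⟩ := hf.isExactOn_ball
  exact ⟨fun z => g z - g a, sub_self _, fun z hz => (hg z hz).sub_const _⟩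

/-- Picard iteration in a Banach algebra. -/
theorem exists_sol_alg {𝔸 : Type} [NormedRing 𝔸] [NormedAlgebra ℂ 𝔸] [CompleteSpace 𝔸]
    [NormOneClass 𝔸]
    {a : ℂ} {r C : ℝ} (hr : 0 < r) (A : ℂ → 𝔸) (hA : DifferentiableOn ℂ A (ball a r))
    (hC : ∀ z ∈ ball a r, ‖A z‖ ≤ C) (hCr : C * r ≤ 1 / 2) :
    ∃ U : ℂ → 𝔸, U a = 1 ∧ ∀ z ∈ ball a r, HasDerivAt U (A z * U z) z := by
  classical
  have ha : a ∈ ball a r := mem_ball_self hr
  have hC0 : 0 ≤ C := (norm_nonneg _).trans (hC a ha)
  have step : ∀ f : {f : ℂ → 𝔸 // DifferentiableOn ℂ f (ball a r)},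
      ∃ g : {f : ℂ → 𝔸 // DifferentiableOn ℂ f (ball a r)}, g.1 a = 0 ∧
        ∀ z ∈ ball a r, HasDerivAt g.1 (A z * f.1 z) z := by
    intro f
    obtain ⟨g, hg0, hg⟩ := exists_prim (fun z => A z * f.1 z) (hA.mul f.2)
    exact ⟨⟨g, fun z hz => (hg z hz).differentiableAt.differentiableWithinAt⟩, hg0, hg⟩
  choose nx hnx0 hnx using step
  let d : ℕ → {f : ℂ → 𝔸 // DifferentiableOn ℂ f (ball a r)} := fun k =>
    Nat.rec ⟨fun _ => 1, differentiableOn_const _⟩ (fun _ f => nx f) k
  have hd0 : (d 0).1 = fun _ => 1 := rfl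
  have hds : ∀ k, d (k + 1) = nx (d k) := fun k => rfl
  have hbd : ∀ k, ∀ z ∈ ball a r, ‖(d k).1 z‖ ≤ (1 / 2) ^ k := by
    intro k
    induction k with
    | zero => intro z _; rw [hd0]; simp
    | succ k ih =>
      intro z hz
      rw [hds]
      have h1 := (convex_ball a r).norm_image_sub_le_of_norm_hasDerivWithin_le
        (f := (nx (d k)).1) (f' := fun z => A z * (d k).1 z) (C := C * (1 / 2) ^ k)
        (fun w hw => (hnx (d k) w hw).hasDerivWithinAt) (fun w hw => by
          refine (norm_mul_le _ _).trans ?_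
          exact mul_le_mul (hC w hw) (ih w hw) (norm_nonneg _) hC0) ha hz
      rw [hnx0, sub_zero] at h1
      refine h1.trans ?_
      have h2 : ‖z - a‖ ≤ r := by
        rw [← dist_eq_norm]
        exact (mem_ball.mp hz).le
      calc C * (1 / 2) ^ k * ‖z - a‖ ≤ C * (1 / 2) ^ k * r := by gcongr
        _ = (C * r) * (1 / 2) ^ k := by ring
        _ ≤ (1 / 2) * (1 / 2) ^ k := by gcongr
        _ = (1 / 2) ^ (k + 1) := by ring
  have hsum : Summable (fun k : ℕ => (1 / 2 : ℝ) ^ k) := summable_geometric_of_lt_one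
    (by norm_num) (by norm_num)
  have hunif := tendstoUniformlyOn_tsum_nat hsum (s := ball a r)
    (f := fun k z => (d k).1 z) hbd
  set U : ℂ → 𝔸 := fun z => ∑' k, (d k).1 z with hU
  refine ⟨U, ?_, ?_⟩
  · rw [hU]
    simp only
    rw [tsum_eq_single 0]
    · rw [hd0]
    · intro k hk
      obtain ⟨j, rfl⟩ := Nat.exists_eq_succ_of_ne_zero hk
      rw [Nat.succ_eq_add_one, hds, hnx0]
  · intro z hz
    apply hasDerivAt_of_tendstoUniformlyOn (𝕜 := ℂ) (l := atTop) isOpen_ball
      (f := fun N z => ∑ k ∈ Finset.range (N + 1), (d k).1 z)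
      (f' := fun N z => A z * ∑ k ∈ Finset.range N, (d k).1 z)
      (g' := fun z => A z * U z) _ _ _ hz
    · rw [Metric.tendstoUniformlyOn_iff] at hunif ⊢
      intro ε hε
      have hε' : 0 < ε / (C + 1) := by positivity
      filter_upwards [hunif _ hε'] with N hN w hw
      have h1 := hN w hw
      rw [dist_eq_norm] at h1 ⊢
      rw [← mul_sub]
      refine (norm_mul_le _ _).trans_lt ?_
      calc ‖A w‖ * ‖U w - ∑ k ∈ Finset.range N, (d k).1 w‖
          ≤ C * ‖U w - ∑ k ∈ Finset.range N, (d k).1 w‖ := by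
            exact mul_le_mul_of_nonneg_right (hC w hw) (norm_nonneg _)
        _ ≤ C * (ε / (C + 1)) := mul_le_mul_of_nonneg_left h1.le hC0
        _ < ε := by
            rw [mul_div_assoc', div_lt_iff₀ (by positivity)]
            nlinarith
    · refine Eventually.of_forall fun N w hw => ?_
      have h2 : HasDerivAt (fun z => ∑ k ∈ Finset.range (N + 1), (d k).1 z)
          (0 + ∑ k ∈ Finset.range N, A w * (d k).1 w) w := by
        have h3 : (fun z => ∑ k ∈ Finset.range (N + 1), (d k).1 z)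
            = fun z => (d 0).1 z + ∑ k ∈ Finset.range N, (d (k + 1)).1 z := by
          funext z
          rw [Finset.sum_range_succ', add_comm]
        rw [h3]
        apply HasDerivAt.add
        · rw [hd0]
          exact hasDerivAt_const w 1
        · apply HasDerivAt.fun_sum
          intro k _
          exact hnx (d k) w hw
      rw [zero_add, ← Finset.mul_sum] at h2
      exact h2
    · intro w hw
      have h4 : Summable (fun k => (d k).1 w) := by
        apply Summable.of_norm_bounded hsum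
        intro k
        exact hbd k w hw
      exact (h4.hasSum.tendsto_sum_nat).comp (tendsto_add_atTop_nat 1)

/-- Local fundamental matrix. -/
theorem exists_fund {n : ℕ} {S : Set ℂ} (hS : IsOpen S) (A : ℂ → Matrix (Fin n) (Fin n) ℂ)
    (hA : ∀ i j, AnalyticOnNhd ℂ (fun z => A z i j) S) {a : ℂ} (ha : a ∈ S) :
    ∃ r > 0, ball a r ⊆ S ∧ ∃ U : ℂ → Matrix (Fin n) (Fin n) ℂ,
      (∀ z ∈ ball a r, ∀ i j, HasDerivAt (fun w => U w i j) ((A z * U z) i j) z) ∧
      ∀ z ∈ ball a r, (U z).det ≠ 0 := by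
  classical
  rcases Nat.eq_zero_or_pos n with rfl | hn
  · obtain ⟨r, hr, hb⟩ := Metric.isOpen_iff.mp hS a ha
    exact ⟨r, hr, hb, fun _ => 1, fun z _ i => Fin.elim0 i, fun z _ => by simp⟩
  have : Nonempty (Fin n) := ⟨⟨0, hn⟩⟩
  let _ : NormedRing (Matrix (Fin n) (Fin n) ℂ) := Matrix.linftyOpNormedRing
  let _ : NormedAlgebra ℂ (Matrix (Fin n) (Fin n) ℂ) := Matrix.linftyOpNormedAlgebra
  have _ : NormOneClass (Matrix (Fin n) (Fin n) ℂ) := Matrix.linfty_opNormOneClass
  have _ : FiniteDimensional ℂ (Matrix (Fin n) (Fin n) ℂ) := inferInstance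
  have _ : CompleteSpace (Matrix (Fin n) (Fin n) ℂ) := FiniteDimensional.complete ℂ _
  have hAd : DifferentiableOn ℂ A S := by
    have h1 : A = fun z => ∑ i, ∑ j, A z i j • Matrix.single i j (1 : ℂ) := by
      funext z
      conv_lhs => rw [Matrix.matrix_eq_sum_single (A z)]
      refine Finset.sum_congr rfl fun i _ => Finset.sum_congr rfl fun j _ => ?_
      rw [Matrix.smul_single, smul_eq_mul, mul_one]
    rw [h1]
    apply DifferentiableOn.fun_sum
    intro i _
    apply DifferentiableOn.fun_sum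
    intro j _
    exact (hA i j).differentiableOn.smul_const _
  have hcont : ContinuousAt A a := (hAd a ha).continuousWithinAt.continuousAt (hS.mem_nhds ha)
  obtain ⟨r0, hr0, hb0⟩ := Metric.isOpen_iff.mp hS a ha
  obtain ⟨r1, hr1, hb1⟩ := Metric.eventually_nhds_iff_ball.mp
    (hcont.norm.eventually_lt_const (lt_add_one ‖A a‖))
  set C := ‖A a‖ + 1 with hC
  have hC0 : 0 < C := by positivity
  set r := min (min r0 r1) (1 / (2 * C)) with hr
  have hrpos : 0 < r := by positivity
  have hrS : ball a r ⊆ S := (ball_subset_ball ((min_le_left _ _).trans (min_le_left _ _))).trans hb0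
  obtain ⟨U, hU1, hU⟩ := exists_sol_alg hrpos A (hAd.mono hrS) (C := C)
    (fun z hz => (hb1 z (ball_subset_ball ((min_le_left _ _).trans (min_le_right _ _)) hz)).le)
    (by
      have h1 : r ≤ 1 / (2 * C) := min_le_right _ _
      calc C * r ≤ C * (1 / (2 * C)) := by gcongr
        _ = 1 / 2 := by field_simp)
  have hent : ∀ z ∈ ball a r, ∀ i j, HasDerivAt (fun w => U w i j) ((A z * U z) i j) z := by
    intro z hz i j
    let e : Matrix (Fin n) (Fin n) ℂ →L[ℂ] ℂ :=
      LinearMap.toContinuousLinearMap (Matrix.entryLinearMap ℂ ℂ i j)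
    exact e.hasFDerivAt.comp_hasDerivAt z (hU z hz)
  have hdet : ContinuousAt (fun z => (U z).det) a := by
    have h1 : ContinuousAt U a := (hU a (mem_ball_self hrpos)).continuousAt
    exact (Continuous.matrix_det continuous_id).continuousAt.comp h1
  obtain ⟨r2, hr2, hb2⟩ := Metric.eventually_nhds_iff_ball.mp
    (hdet.eventually_ne (by rw [hU1, Matrix.det_one]; exact one_ne_zero))
  refine ⟨min r r2, lt_min hrpos hr2, (ball_subset_ball (min_le_left _ _)).trans hrS, U, ?_, ?_⟩
  · intro z hz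
    exact hent z (ball_subset_ball (min_le_left _ _) hz)
  · intro z hz
    exact hb2 z (ball_subset_ball (min_le_right _ _) hz)

end Pool.Agent.TH143
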