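import Mathlib
import Pool.Agent.W603.BP.Germ
import Pool.Agent.W603.BP.Birk

/-!
Functions on punctured discs: growth of solutions of linear systems, logarithmic derivatives,
algebraic functions.
-/

set_option autoImplicit false

namespace Pool.Agent.TH143

open Metric Set Filter Topology Pool.Agent.W603.BP

theorem mero_bound {c : ℂ → ℂ} (hc : MeromorphicAt c 0) :
    ∃ (C : ℝ) (K : ℕ), 0 ≤ C ∧ ∀ᶠ w in 𝓝[≠] (0 : ℂ), ‖c w‖ * ‖w‖ ^ K ≤ C := by
  have h1 : MRel c (fun _ => 1) := ⟨c, hc, Eventually.of_forall fun w => by ring⟩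
  obtain ⟨C, K, h⟩ := h1.gr
  refine ⟨|C|, K, abs_nonneg _, ?_⟩
  filter_upwards [h] with w hw
  rw [norm_one, mul_one] at hw
  exact hw.trans (le_abs_self _)

theorem mero_bound_fin {J : Type} [Finite J] (c : J → ℂ → ℂ) (hc : ∀ j, MeromorphicAt (c j) 0) :
    ∃ (C : ℝ) (K : ℕ), 0 ≤ C ∧ ∀ᶠ w in 𝓝[≠] (0 : ℂ), ∀ j, ‖c j w‖ * ‖w‖ ^ K ≤ C := by
  classical
  have := Fintype.ofFinite J
  choose C K hC h using fun j => mero_bound (hc j)
  have h1 : ∀ᶠ w in 𝓝[≠] (0 : ℂ), ‖w‖ < 1 := by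
    filter_upwards [PB_mem one_pos] with w hw
    exact hw.2
  refine ⟨∑ j, C j, ∑ j, K j, Finset.sum_nonneg fun j _ => hC j, ?_⟩
  filter_upwards [eventually_all.mpr h, h1] with w hw hw1 j
  have h2 : ‖w‖ ^ (∑ j, K j) ≤ ‖w‖ ^ (K j) :=
    pow_le_pow_of_le_one (norm_nonneg _) hw1.le (Finset.single_le_sum (f := K)
      (fun _ _ => Nat.zero_le _) (Finset.mem_univ j))
  calc ‖c j w‖ * ‖w‖ ^ (∑ j, K j) ≤ ‖c j w‖ * ‖w‖ ^ (K j) := by gcongr
    _ ≤ C j := hw j
    _ ≤ ∑ j, C j := Finset.single_le_sum (f := C) (fun j _ => hC j) (Finset.mem_univ j)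

/-- growth of the solutions of a linear system at a pole -/
theorem growth_sol {n : ℕ} (A : Fin n → Fin n → ℂ → ℂ) (hA : ∀ i j, MeromorphicAt (A i j) 0)
    (y : ℂ → Fin n → ℂ)
    (hy : ∀ᶠ w in 𝓝[≠] (0 : ℂ), ∀ i, HasDerivAt (fun w => y w i) (∑ k, A i k w * y w k) w) :
    ∃ (C : ℝ) (K : ℕ), 0 ≤ C ∧ ∀ᶠ w in 𝓝[≠] (0 : ℂ), ∀ i, ‖y w i‖ ≤ Real.exp (C * (‖w‖ ^ K)⁻¹) := by
  obtain ⟨C, K, hC, hb⟩ := mero_bound_fin (fun p : Fin n × Fin n => A p.1 p.2) (fun p => hA _ _)
  obtain ⟨δ, hδ, h⟩ := ev_iff.mp (hy.and hb)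
  set ρ := min (δ / 2) 1 with hρ
  have hρ0 : 0 < ρ := by positivity
  have hρδ : ρ < δ := (min_le_left _ _).trans_lt (half_lt_self hδ)
  have hρ1 : ρ ≤ 1 := min_le_right _ _
  -- bound on the circle
  have hyc : ContinuousOn y (sphere 0 ρ) := by
    intro w hw
    apply ContinuousAt.continuousWithinAt
    have hw' : w ∈ PB δ := by
      have h1 : ‖w‖ = ρ := by simpa using hw
      refine ⟨?_, by rw [h1]; exact hρδ⟩
      intro h0
      rw [h0, norm_zero] at h1
      linarith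
    rw [continuousAt_pi]
    intro i
    exact ((h w hw').1 i).continuousAt
  obtain ⟨M, hM⟩ := ((isCompact_sphere (0 : ℂ) ρ).image_of_continuousOn hyc).isBounded.exists_norm_le
  have hM' : ∀ w ∈ sphere (0 : ℂ) ρ, ‖y w‖ ≤ M := fun w hw => hM _ (mem_image_of_mem _ hw)
  set C' := (n : ℝ) * C with hC'
  have hC'0 : 0 ≤ C' := by positivity
  refine ⟨|Real.log (|M| + 1)| + C', K, by positivity, ?_⟩
  refine ev_iff.mpr ⟨ρ, hρ0, ?_⟩
  rintro w ⟨hw0, hwρ⟩ i
  set s := ‖w‖ with hs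
  have hs0 : 0 < s := norm_pos_iff.mpr hw0
  -- the ray
  let u : ℂ := w / s
  have hu : ‖u‖ = 1 := by
    simp only [u]
    rw [norm_div, Complex.norm_real, Real.norm_of_nonneg hs0.le, div_self hs0.ne']
  let γ : ℝ → ℂ := fun x => ((ρ - x : ℝ) : ℂ) * u
  have hγn : ∀ x, x ≤ ρ → ‖γ x‖ = ρ - x := by
    intro x hx
    simp only [γ]
    rw [norm_mul, hu, mul_one, Complex.norm_real, Real.norm_of_nonneg (by linarith)]
  have hγP : ∀ x ∈ Icc 0 (ρ - s), γ x ∈ PB δ := by
    intro x hx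
    have h1 := hγn x (by linarith [hx.2])
    have h2 : 0 < ρ - x := by linarith [hx.2]
    refine ⟨?_, by rw [h1]; linarith [hx.1]⟩
    intro h0
    rw [h0, norm_zero] at h1
    linarith
  have hγd : ∀ x, HasDerivAt γ (-u) x := by
    intro x
    have h1 : HasDerivAt (fun x : ℝ => ((ρ - x : ℝ) : ℂ)) (-1) x := by
      have := ((hasDerivAt_id x).const_sub ρ).ofReal_comp
      simpa using this
    have := h1.mul_const u
    simpa [γ] using this
  have hYd : ∀ x ∈ Icc 0 (ρ - s), HasDerivAt (fun x => y (γ x))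
      (fun i => (∑ k, A i k (γ x) * y (γ x) k) * (-u)) x := by
    intro x hx
    rw [hasDerivAt_pi]
    intro i
    have := (h (γ x) (hγP x hx)).1 i
    exact this.comp x (hγd x)
  have hgr := norm_le_gronwallBound_of_norm_deriv_right_le (f := fun x => y (γ x))
    (f' := fun x => fun i => (∑ k, A i k (γ x) * y (γ x) k) * (-u)) (δ := |M| + 1)
    (K := C' * (s ^ K)⁻¹) (ε := 0) (a := 0) (b := ρ - s)
    (fun x hx => (hYd x hx).continuousAt.continuousWithinAt)
    (fun x hx => (hYd x ⟨hx.1, hx.2.le⟩).hasDerivWithinAt)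
    (by
      refine (hM' _ ?_).trans ((le_abs_self M).trans (by linarith))
      rw [mem_sphere, dist_zero_right, hγn 0 hρ0.le, sub_zero]) (by
      intro x hx
      have hx' : x ∈ Icc 0 (ρ - s) := ⟨hx.1, hx.2.le⟩
      rw [add_zero, pi_norm_le_iff_of_nonneg (by positivity)]
      intro i
      rw [norm_mul, norm_neg, hu, mul_one]
      have hAi : ∀ k, ‖A i k (γ x)‖ ≤ C * (s ^ K)⁻¹ := by
        intro k
        have h1 := (h (γ x) (hγP x hx')).2 (i, k)
        have h2 : s ≤ ‖γ x‖ := by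
          rw [hγn x (by linarith [hx.2])]
          linarith [hx.2]
        rw [← div_eq_mul_inv, le_div_iff₀ (by positivity)]
        calc ‖A i k (γ x)‖ * s ^ K ≤ ‖A i k (γ x)‖ * ‖γ x‖ ^ K := by gcongr
          _ ≤ C := h1
      calc ‖∑ k, A i k (γ x) * y (γ x) k‖ ≤ ∑ k, ‖A i k (γ x) * y (γ x) k‖ := norm_sum_le _ _
        _ ≤ ∑ _k : Fin n, (C * (s ^ K)⁻¹) * ‖y (γ x)‖ := by
            refine Finset.sum_le_sum fun k _ => ?_
            rw [norm_mul]
            exact mul_le_mul (hAi k) (norm_le_pi_norm _ _) (norm_nonneg _) (by positivity)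
        _ = C' * (s ^ K)⁻¹ * ‖y (γ x)‖ := by
            rw [Finset.sum_const, Finset.card_univ, Fintype.card_fin, nsmul_eq_mul, hC']
            ring) (ρ - s) ⟨by linarith, le_refl _⟩
  have hγe : γ (ρ - s) = w := by
    simp only [γ, u]
    rw [sub_sub_cancel]
    have : (s : ℂ) ≠ 0 := by exact_mod_cast hs0.ne'
    field_simp
  simp only [hγe] at hgr
  rw [gronwallBound_ε0, sub_zero] at hgr
  refine (norm_le_pi_norm (y w) i).trans (hgr.trans ?_)
  have h1 : |M| + 1 = Real.exp (Real.log (|M| + 1)) := (Real.exp_log (by positivity)).symm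
  have hsK : s ^ K ≤ 1 := pow_le_one₀ hs0.le (by linarith)
  have hsK0 : 0 < s ^ K := by positivity
  have h2 : 1 ≤ (s ^ K)⁻¹ := (one_le_inv₀ hsK0).mpr hsK
  rw [h1, ← Real.exp_add]
  apply Real.exp_le_exp.mpr
  rw [← h1]
  have h3 : Real.log (|M| + 1) ≤ |Real.log (|M| + 1)| * (s ^ K)⁻¹ := by
    refine (le_abs_self _).trans ?_
    exact le_mul_of_one_le_right (abs_nonneg _) h2
  have h4 : C' * (s ^ K)⁻¹ * (ρ - s) ≤ C' * (s ^ K)⁻¹ := by
    apply mul_le_of_le_one_right (by positivity)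
    linarith
  nlinarith

/-- A quotient of functions on a punctured disc which is algebraic over the meromorphic germs is
meromorphic. -/
theorem mrel_of_alg {e e' : ℂ → ℂ} (he : Pun e) (he' : Pun e') (hn : Nz e') (m : ℕ)
    (c : ℕ → ℂ → ℂ) (hc : ∀ k, MeromorphicAt (c k) 0) (hc0 : ∃ k ≤ m, Nz (c k))
    (h : ∀ᶠ w in 𝓝[≠] (0 : ℂ), ∑ k ∈ Finset.range (m + 1), c k w * e w ^ k * e' w ^ (m - k) = 0) :
    MRel e e' := by
  classical
  -- the top nonzero coefficient
  let T := (Finset.range (m + 1)).filter fun k => Nz (c k)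
  have hT : T.Nonempty := by
    obtain ⟨k, hk, hk'⟩ := hc0
    exact ⟨k, Finset.mem_filter.mpr ⟨Finset.mem_range.mpr (Nat.lt_succ_of_le hk), hk'⟩⟩
  set l := T.max' hT with hl
  have hlT : l ∈ T := T.max'_mem hT
  have hlm : l ≤ m := Nat.lt_succ_iff.mp (Finset.mem_range.mp (Finset.mem_filter.mp hlT).1)
  have hlN : Nz (c l) := (Finset.mem_filter.mp hlT).2
  have hbig : ∀ k, l < k → k ≤ m → ∀ᶠ w in 𝓝[≠] (0 : ℂ), c k w = 0 := by
    intro k hk hkm
    by_contra hcon
    have : k ∈ T := Finset.mem_filter.mpr ⟨Finset.mem_range.mpr (Nat.lt_succ_of_le hkm), hcon⟩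
    exact absurd (T.le_max' k this) (not_le.mpr hk)
  have hbig' : ∀ᶠ w in 𝓝[≠] (0 : ℂ), ∀ k ∈ Finset.range (m + 1), l < k → c k w = 0 := by
    rw [Filter.eventually_all_finset]
    intro k hk
    by_cases hlk : l < k
    · filter_upwards [hbig k hlk (Nat.lt_succ_iff.mp (Finset.mem_range.mp hk))] with w hw _
      exact hw
    · exact Eventually.of_forall fun w h => absurd h hlk
  -- the shortened relation
  have hshort : ∀ᶠ w in 𝓝[≠] (0 : ℂ),
      e' w ^ (m - l) * ∑ k ∈ Finset.range (l + 1), c k w * e w ^ k * e' w ^ (l - k) = 0 := by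
    filter_upwards [h, hbig'] with w h1 h2
    rw [← h1, Finset.mul_sum]
    have hsub : Finset.range (l + 1) ⊆ Finset.range (m + 1) := by
      intro k hk
      rw [Finset.mem_range] at hk ⊢
      omega
    rw [← Finset.sum_subset hsub (f := fun k => c k w * e w ^ k * e' w ^ (m - k))]
    · refine Finset.sum_congr rfl fun k hk => ?_
      have hk' : k ≤ l := Nat.lt_succ_iff.mp (Finset.mem_range.mp hk)
      have : m - k = (m - l) + (l - k) := by omega
      rw [this, pow_add]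
      ring
    · intro k hk hk'
      have : l < k := by
        rw [Finset.mem_range] at hk'
        omega
      rw [h2 k hk this]
      ring
  have hPc : ∀ k, Pun (c k) := fun k => Pun.mero (hc k)
  have hPs : Pun (fun w => ∑ k ∈ Finset.range (l + 1), c k w * e w ^ k * e' w ^ (l - k)) :=
    Pun.sum _ fun k _ => ((hPc k).mul (he.pow k)).mul (he'.pow _)
  have hrel : ∀ᶠ w in 𝓝[≠] (0 : ℂ),
      ∑ k ∈ Finset.range (l + 1), c k w * e w ^ k * e' w ^ (l - k) = 0 := by
    rcases pun_mul_zero (he'.pow (m - l)) hPs hshort with h1 | h1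
    · exact absurd h1 (hn.pow _)
    · exact h1
  have hl0 : l ≠ 0 := by
    intro h0
    apply hlN
    filter_upwards [hrel] with w hw
    rw [h0] at hw ⊢
    simpa using hw
  -- the bound
  have hq : ∀ k : Fin l, MeromorphicAt (fun w => c k w / c l w) 0 := fun k =>
    (hc k).fun_div (hc l)
  obtain ⟨C, K, hC, hb⟩ := mero_bound_fin (fun (k : Fin l) w => c k w / c l w) hq
  apply growth_mero he he' hn
  have h1 : ∀ᶠ w in 𝓝[≠] (0 : ℂ), w ∈ PB 1 := PB_mem one_pos
  refine ⟨l * C + 1, K, ?_⟩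
  filter_upwards [hrel, hb, mero_ne (hc l) hlN, h1] with w hw hbw hcl hw1
  set s := ‖w‖ with hs
  have hs0 : 0 < s := norm_pos_iff.mpr hw1.1
  have hsK : s ^ K ≤ 1 := pow_le_one₀ hs0.le hw1.2.le
  have hsK0 : 0 < s ^ K := by positivity
  by_cases hle : ‖e w‖ ≤ ‖e' w‖
  · calc ‖e w‖ * s ^ K ≤ ‖e' w‖ * 1 := mul_le_mul hle hsK hsK0.le (norm_nonneg _)
      _ ≤ (l * C + 1) * ‖e' w‖ := by
        have : 0 ≤ (l : ℝ) * C := by positivity
        nlinarith [norm_nonneg (e' w)]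
  · push Not at hle
    have he0 : 0 < ‖e w‖ := (norm_nonneg _).trans_lt hle
    rw [Finset.sum_range_succ, Nat.sub_self, pow_zero, mul_one] at hw
    have h2 : e w ^ l = -∑ k ∈ Finset.range l, (c k w / c l w) * e w ^ k * e' w ^ (l - k) := by
      have h3 : c l w * e w ^ l = -∑ k ∈ Finset.range l, c k w * e w ^ k * e' w ^ (l - k) := by
        linear_combination hw
      apply mul_left_cancel₀ hcl
      rw [h3, mul_neg, Finset.mul_sum]
      congr 1
      refine Finset.sum_congr rfl fun k _ => ?_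
      field_simp
    have h4 : ‖e w‖ ^ l ≤ (l * (C * (s ^ K)⁻¹)) * (‖e w‖ ^ (l - 1) * ‖e' w‖) := by
      rw [← norm_pow, h2, norm_neg]
      refine (norm_sum_le _ _).trans ?_
      have h5 : ∀ k ∈ Finset.range l, ‖(c k w / c l w) * e w ^ k * e' w ^ (l - k)‖
          ≤ (C * (s ^ K)⁻¹) * (‖e w‖ ^ (l - 1) * ‖e' w‖) := by
        intro k hk
        have hkl := Finset.mem_range.mp hk
        rw [norm_mul, norm_mul, norm_pow, norm_pow, mul_assoc]
        apply mul_le_mul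
        · rw [← div_eq_mul_inv, le_div_iff₀ hsK0]
          exact hbw ⟨k, hkl⟩
        · have h6 : l - k = (l - 1 - k) + 1 := by omega
          have h7 : l - 1 = k + (l - 1 - k) := by omega
          rw [h6, pow_succ]
          conv_rhs => rw [h7, pow_add]
          have h8 : ‖e' w‖ ^ (l - 1 - k) ≤ ‖e w‖ ^ (l - 1 - k) :=
            pow_le_pow_left₀ (norm_nonneg _) hle.le _
          calc ‖e w‖ ^ k * (‖e' w‖ ^ (l - 1 - k) * ‖e' w‖)
              ≤ ‖e w‖ ^ k * (‖e w‖ ^ (l - 1 - k) * ‖e' w‖) := by gcongr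
            _ = _ := by
              ring
        · positivity
        · positivity
      refine (Finset.sum_le_sum h5).trans ?_
      rw [Finset.sum_const, Finset.card_range, nsmul_eq_mul]
      exact le_of_eq (by ring)
    have h10 : ‖e w‖ ^ l = ‖e w‖ ^ (l - 1) * ‖e w‖ := by
      rw [← pow_succ]
      congr 1
      omega
    have h11 : ‖e w‖ ≤ (l * (C * (s ^ K)⁻¹)) * ‖e' w‖ := by
      have h12 : 0 < ‖e w‖ ^ (l - 1) := by positivity
      rw [h10] at h4
      have h13 : ‖e w‖ ^ (l - 1) * ‖e w‖ ≤ ‖e w‖ ^ (l - 1) * ((l * (C * (s ^ K)⁻¹)) * ‖e' w‖) := by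
        refine h4.trans (le_of_eq ?_)
        ring
      exact le_of_mul_le_mul_left h13 h12
    calc ‖e w‖ * s ^ K ≤ ((l * (C * (s ^ K)⁻¹)) * ‖e' w‖) * s ^ K := by gcongr
      _ = l * C * ‖e' w‖ := by field_simp
      _ ≤ (l * C + 1) * ‖e' w‖ := by
        have := norm_nonneg (e' w)
        nlinarith

/-- entire logarithm with polynomial growth -/
theorem log_growth {G : ℂ → ℂ} (hG : Differentiable ℂ G) (hne : ∀ z, G z ≠ 0) {C R0 : ℝ} {p : ℕ}
    (hC : 0 ≤ C) (hgr : ∀ z, R0 ≤ ‖z‖ → ‖G z‖ ≤ Real.exp (C * ‖z‖ ^ p)) :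
    ∃ h : ℂ → ℂ, Differentiable ℂ h ∧ (∀ z, G z = Complex.exp (h z)) ∧
      ∃ C' : ℝ, ∀ z, 1 ≤ ‖z‖ → ‖h z‖ ≤ C' * ‖z‖ ^ p := by
  obtain ⟨g, hg⟩ := ((hG.deriv).fun_div hG hne).isExactOn_univ
  set h : ℂ → ℂ := fun z => g z + (Complex.log (G 0) - g 0) with hh
  have hd : ∀ z, HasDerivAt h (deriv G z / G z) z := fun z => (hg z (mem_univ z)).add_const _
  have hdiff : Differentiable ℂ h := fun z => (hd z).differentiableAt
  have hGh : ∀ z, G z = Complex.exp (h z) := by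
    intro z
    have h1 : ∀ w, HasDerivAt (fun w => G w * Complex.exp (-h w)) 0 w := by
      intro w
      refine ((hG w).hasDerivAt.mul (hd w).neg.cexp).congr_deriv ?_
      have := hne w
      field_simp
      ring
    have h2 := is_const_of_deriv_eq_zero (fun w => (h1 w).differentiableAt)
      (fun w => (h1 w).deriv) z 0
    have h3 : h 0 = Complex.log (G 0) := by rw [hh]; ring
    rw [h3, Complex.exp_neg, Complex.exp_neg, Complex.exp_log (hne 0),
      mul_inv_cancel₀ (hne 0)] at h2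
    have h4 := Complex.exp_ne_zero (h z)
    field_simp at h2
    exact h2
  -- bound on the real part
  obtain ⟨M, hM⟩ := (isCompact_closedBall (0 : ℂ) R0).image_of_continuousOn
    hG.continuous.continuousOn |>.isBounded.exists_norm_le
  have hre : ∀ z, (h z).re ≤ Real.log (|M| + 1) + C * ‖z‖ ^ p := by
    intro z
    have h1 : Real.exp (h z).re = ‖G z‖ := by rw [hGh z, Complex.norm_exp]
    have hl : 0 ≤ Real.log (|M| + 1) := Real.log_nonneg (by linarith [abs_nonneg M])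
    rcases le_or_gt R0 ‖z‖ with h2 | h2
    · have h3 := hgr z h2
      rw [← h1, Real.exp_le_exp] at h3
      linarith
    · have h3 : ‖G z‖ ≤ |M| + 1 := by
        have := hM (G z) (mem_image_of_mem _ (by rw [mem_closedBall, dist_zero_right]; exact h2.le))
        linarith [le_abs_self M]
      rw [← h1, ← Real.exp_log (by positivity : 0 < |M| + 1), Real.exp_le_exp] at h3
      have : 0 ≤ C * ‖z‖ ^ p := by positivity
      linarith
  refine ⟨h, hdiff, hGh, 2 * (Real.log (|M| + 1) + 1 + C * 3 ^ p) + 3 * ‖h 0‖, ?_⟩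
  intro z hz
  have hl : 0 ≤ Real.log (|M| + 1) := Real.log_nonneg (by linarith [abs_nonneg M])
  set R := 2 * ‖z‖ + 1 with hR
  have hzR : z ∈ ball (0 : ℂ) R := by
    rw [mem_ball, dist_zero_right, hR]
    linarith
  set MR := Real.log (|M| + 1) + 1 + C * R ^ p with hMR
  have hR0 : 0 < R := by rw [hR]; positivity
  have hMR0 : 0 < MR := by
    have : 0 ≤ C * R ^ p := by positivity
    linarith
  have hBC := Complex.borelCaratheodory (f := h) (M := MR) (R := R) (z := z) hMR0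
    hdiff.differentiableOn (by
      intro w hw
      rw [mem_ball, dist_zero_right] at hw
      change (h w).re ≤ MR
      refine (hre w).trans ?_
      have : C * ‖w‖ ^ p ≤ C * R ^ p := by gcongr
      linarith) hR0 hzR
  have hRz : R - ‖z‖ = ‖z‖ + 1 := by rw [hR]; ring
  have h1 : 2 * MR * ‖z‖ / (R - ‖z‖) ≤ 2 * MR := by
    rw [hRz, div_le_iff₀ (by positivity)]
    nlinarith [norm_nonneg z]
  have h2 : ‖h 0‖ * (R + ‖z‖) / (R - ‖z‖) ≤ 3 * ‖h 0‖ := by
    rw [hRz, div_le_iff₀ (by positivity), hR]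
    nlinarith [norm_nonneg z, norm_nonneg (h 0)]
  have h3 : R ^ p ≤ 3 ^ p * ‖z‖ ^ p := by
    rw [← mul_pow]
    gcongr
    rw [hR]
    linarith
  have h4 : 1 ≤ ‖z‖ ^ p := one_le_pow₀ hz
  have h5 : C * R ^ p ≤ C * (3 ^ p * ‖z‖ ^ p) := by gcongr
  calc ‖h z‖ ≤ 2 * MR + 3 * ‖h 0‖ := by linarith
    _ = 2 * (Real.log (|M| + 1) + 1) + 2 * (C * R ^ p) + 3 * ‖h 0‖ := by rw [hMR]; ring
    _ ≤ 2 * (Real.log (|M| + 1) + 1) * ‖z‖ ^ p + 2 * (C * (3 ^ p * ‖z‖ ^ p))
        + 3 * ‖h 0‖ * ‖z‖ ^ p := by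
        have e1 : 2 * (Real.log (|M| + 1) + 1) ≤ 2 * (Real.log (|M| + 1) + 1) * ‖z‖ ^ p :=
          le_mul_of_one_le_right (by positivity) h4
        have e2 : 3 * ‖h 0‖ ≤ 3 * ‖h 0‖ * ‖z‖ ^ p := le_mul_of_one_le_right (by positivity) h4
        linarith
    _ = _ := by ring

/-- The logarithmic derivative of a zero-free function of moderate growth on a punctured disc is
meromorphic. -/
theorem logderiv_mero {y : ℂ → ℂ} (hy : AnalyticOnNhd ℂ y (PB 1)) (hne : ∀ w ∈ PB 1, y w ≠ 0)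
    {C : ℝ} {K : ℕ} (hC : 0 ≤ C)
    (hgr : ∀ᶠ w in 𝓝[≠] (0 : ℂ), ‖y w‖ ≤ Real.exp (C * (‖w‖ ^ K)⁻¹)) :
    ∃ b : ℂ → ℂ, MeromorphicAt b 0 ∧ ∀ᶠ w in 𝓝[≠] (0 : ℂ), HasDerivAt y (b w * y w) w := by
  have hinv : ∀ z : ℂ, 1 < ‖z‖ → z⁻¹ ∈ PB 1 := by
    intro z hz
    have hz0 : z ≠ 0 := by
      rintro rfl
      rw [norm_zero] at hz
      linarith
    refine ⟨inv_ne_zero hz0, ?_⟩
    rw [norm_inv]
    exact inv_lt_one_of_one_lt₀ hz
  obtain ⟨k, q, G, hq, hG, hG0, hF⟩ := birkhoff (F := fun z => y z⁻¹) (r0 := 1) (r1 := 3) (a := 2)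
    zero_le_one (by norm_num) (by norm_num) (by
      intro z hz
      have hz0 : z ≠ 0 := by
        rintro rfl
        have : (1 : ℝ) < ‖(0 : ℂ)‖ := hz
        rw [norm_zero] at this
        linarith
      exact ((hy _ (hinv z hz)).differentiableAt.comp z
        (differentiableAt_inv hz0)).differentiableWithinAt)
    (fun z hz _ => hne _ (hinv z hz))
  have hGne : ∀ z, G z ≠ 0 := by
    intro z
    rcases le_or_gt ‖z‖ 2 with h | h
    · exact hG0 z h
    · intro h0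
      have h1 := hF z h
      rw [h0, mul_zero] at h1
      exact hne _ (hinv z (by linarith)) h1
  -- growth of `G`
  obtain ⟨δ, hδ, hgrδ⟩ := ev_iff.mp hgr
  have hqc : ContinuousOn q (closedBall 0 (1 / 3)) := hq.continuousOn.mono (by
    intro w hw
    rw [mem_closedBall, dist_zero_right] at hw
    rw [mem_ball, dist_zero_right]
    norm_num
    linarith)
  obtain ⟨M, hM⟩ := ((isCompact_closedBall (0 : ℂ) (1 / 3)).image_of_continuousOn
    hqc).isBounded.exists_norm_le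
  obtain ⟨h, hh, hGh, C', hC'⟩ := log_growth hG hGne (C := C + |(k : ℝ)| + |M|)
    (R0 := max 3 (2 * δ⁻¹)) (p := K + 1) (by positivity) (by
      intro z hz
      have hz3 : 3 ≤ ‖z‖ := (le_max_left _ _).trans hz
      have hzδ : 2 * δ⁻¹ ≤ ‖z‖ := (le_max_right _ _).trans hz
      have hz0 : z ≠ 0 := by
        rintro rfl
        rw [norm_zero] at hz3
        linarith
      have hzpos : 0 < ‖z‖ := norm_pos_iff.mpr hz0
      have h1 := hF z (by linarith)
      have h2 : ‖y z⁻¹‖ ≤ Real.exp (C * (‖z⁻¹‖ ^ K)⁻¹) := by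
        apply hgrδ
        refine ⟨inv_ne_zero hz0, ?_⟩
        rw [norm_inv]
        apply inv_lt_of_inv_lt₀ hδ
        have := inv_pos.mpr hδ
        linarith
      have h3 : (‖z⁻¹‖ ^ K)⁻¹ = ‖z‖ ^ K := by rw [norm_inv, inv_pow, inv_inv]
      rw [h3] at h2
      have h4 : G z = y z⁻¹ * z ^ (-k) * Complex.exp (-q z⁻¹) := by
        have h5 := zpow_ne_zero k hz0
        have h6 := Complex.exp_ne_zero (q z⁻¹)
        rw [h1, zpow_neg, Complex.exp_neg]
        field_simp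
      have h5 : ‖z ^ (-k)‖ ≤ Real.exp (|(k : ℝ)| * ‖z‖) := by
        rw [norm_zpow]
        have h6 : ‖z‖ ^ (-k) = Real.exp (Real.log ‖z‖ * ((-k : ℤ) : ℝ)) := by
          rw [mul_comm, ← Real.log_zpow, Real.exp_log (by positivity)]
        rw [h6, Real.exp_le_exp]
        have h7 : Real.log ‖z‖ ≤ ‖z‖ := (Real.log_le_sub_one_of_pos hzpos).trans (by linarith)
        have h8 : 0 ≤ Real.log ‖z‖ := Real.log_nonneg (by linarith)
        calc Real.log ‖z‖ * ((-k : ℤ) : ℝ) ≤ Real.log ‖z‖ * |((-k : ℤ) : ℝ)| := by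
              gcongr
              exact le_abs_self _
          _ = |(k : ℝ)| * Real.log ‖z‖ := by
              push_cast
              rw [abs_neg, mul_comm]
          _ ≤ _ := by gcongr
      have h6 : ‖Complex.exp (-q z⁻¹)‖ ≤ Real.exp |M| := by
        rw [Complex.norm_exp, Real.exp_le_exp]
        have h7 : ‖q z⁻¹‖ ≤ M := hM _ (mem_image_of_mem _ (by
          rw [mem_closedBall, dist_zero_right, norm_inv, one_div]
          exact inv_anti₀ (by norm_num) hz3))
        calc (-q z⁻¹).re ≤ ‖-q z⁻¹‖ := Complex.re_le_norm _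
          _ = ‖q z⁻¹‖ := norm_neg _
          _ ≤ |M| := h7.trans (le_abs_self M)
      rw [h4, norm_mul, norm_mul]
      have hzK : ‖z‖ ^ K ≤ ‖z‖ ^ (K + 1) := pow_le_pow_right₀ (by linarith) (Nat.le_succ K)
      have hz1 : ‖z‖ ≤ ‖z‖ ^ (K + 1) := by
        calc ‖z‖ = ‖z‖ ^ 1 := (pow_one _).symm
          _ ≤ _ := pow_le_pow_right₀ (by linarith) (by omega)
      have hz1' : 1 ≤ ‖z‖ ^ (K + 1) := one_le_pow₀ (by linarith)
      calc ‖y z⁻¹‖ * ‖z ^ (-k)‖ * ‖Complex.exp (-q z⁻¹)‖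
          ≤ Real.exp (C * ‖z‖ ^ K) * Real.exp (|(k : ℝ)| * ‖z‖) * Real.exp |M| := by gcongr
        _ = Real.exp (C * ‖z‖ ^ K + |(k : ℝ)| * ‖z‖ + |M|) := by rw [Real.exp_add, Real.exp_add]
        _ ≤ Real.exp ((C + |(k : ℝ)| + |M|) * ‖z‖ ^ (K + 1)) := by
          rw [Real.exp_le_exp]
          have e1 : C * ‖z‖ ^ K ≤ C * ‖z‖ ^ (K + 1) := by gcongr
          have e2 : |(k : ℝ)| * ‖z‖ ≤ |(k : ℝ)| * ‖z‖ ^ (K + 1) := by gcongr
          have e3 : |M| ≤ |M| * ‖z‖ ^ (K + 1) := le_mul_of_one_le_right (abs_nonneg M) hz1'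
          linarith)
  -- the logarithm is meromorphic
  have hHm : MRel (fun w => h w⁻¹) (fun _ => 1) := by
    apply growth_mero
    · apply on_pun one_pos
      intro w hw
      exact ((hh.analyticAt _).comp (analyticAt_inv hw.1))
    · exact Pun.const 1
    · exact nz_const one_ne_zero
    · refine ⟨C', K + 1, ?_⟩
      filter_upwards [PB_mem one_pos] with w hw
      have hw0 : 0 < ‖w‖ := norm_pos_iff.mpr hw.1
      have h1 := hC' w⁻¹ (by
        rw [norm_inv]
        exact (one_le_inv₀ hw0).mpr hw.2.le)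
      rw [norm_inv, inv_pow] at h1
      have h2 : 0 < ‖w‖ ^ (K + 1) := by positivity
      rw [norm_one, mul_one]
      rw [← div_eq_mul_inv, le_div_iff₀ h2] at h1
      exact h1
  obtain ⟨ρ, hρ, hρe⟩ := hHm
  have hρ' : ∀ᶠ w in 𝓝[≠] (0 : ℂ), h w⁻¹ = ρ w := by
    filter_upwards [hρe] with w hw
    rw [hw, mul_one]
  have h0mem : (0 : ℂ) ∈ ball (0 : ℂ) (2 : ℝ)⁻¹ := mem_ball_self (by norm_num)
  have hqan : AnalyticAt ℂ q 0 := hq.analyticAt (isOpen_ball.mem_nhds h0mem)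
  refine ⟨fun w => -k * w⁻¹ + deriv q w + deriv ρ w, ?_, ?_⟩
  · exact (((MeromorphicAt.const _ 0).fun_mul (MeromorphicAt.id 0).fun_inv).fun_add
      hqan.deriv.meromorphicAt).fun_add hρ.deriv
  · have hδ2 : (0 : ℝ) < 1 / 2 := by norm_num
    have hρo : ∀ᶠ w in 𝓝[≠] (0 : ℂ), ∀ᶠ w' in 𝓝 w, h w'⁻¹ = ρ w' := by
      obtain ⟨δ', hδ', hh'⟩ := ev_iff.mp hρ'
      refine ev_iff.mpr ⟨δ', hδ', fun w hw => ?_⟩
      filter_upwards [(PB_open δ').mem_nhds hw] with w' hw'
      exact hh' w' hw'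
    filter_upwards [PB_mem hδ2, hρo] with w hw hρw
    have hw0 := hw.1
    have hwball : w ∈ ball (0 : ℂ) (2 : ℝ)⁻¹ := by
      rw [mem_ball, dist_zero_right]
      have := hw.2
      norm_num
      linarith
    have hlocal : y =ᶠ[𝓝 w] fun w => w ^ (-k) * Complex.exp (q w) * Complex.exp (ρ w) := by
      filter_upwards [(PB_open (1 / 2)).mem_nhds hw, hρw] with x hx hρx
      have h1 := hF x⁻¹ (by
        rw [norm_inv]
        have h2 := hx.2
        have h3 : 0 < ‖x‖ := norm_pos_iff.mpr hx.1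
        rw [lt_inv_comm₀ (by norm_num) h3]
        norm_num
        linarith)
      simp only [inv_inv] at h1
      rw [h1, hGh, hρx, inv_zpow, zpow_neg]
    have hρd : HasDerivAt ρ (deriv ρ w) w := by
      have h1 : DifferentiableAt ℂ (fun w' => h w'⁻¹) w :=
        (hh _).comp w (differentiableAt_inv hw0)
      exact (h1.congr_of_eventuallyEq (by
        filter_upwards [hρw] with x hx
        exact hx.symm)).hasDerivAt
    have hqd : HasDerivAt q (deriv q w) w :=
      (hq.differentiableAt (isOpen_ball.mem_nhds hwball)).hasDerivAt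
    have hder := ((hasDerivAt_zpow (-k) w (Or.inl hw0)).mul hqd.cexp).mul hρd.cexp
    have hval := hlocal.eq_of_nhds
    refine (hder.congr_of_eventuallyEq hlocal).congr_deriv ?_
    rw [hval]
    have h5 : w ^ (-k - 1) = w ^ (-k) * w⁻¹ := zpow_sub_one₀ hw0 (-k)
    rw [h5, Pi.mul_apply]
    push_cast
    ring

end Pool.Agent.TH143
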