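import Mathlib
import Pool.Agent.TH143.Punct

/-!
From linear differential equations to linear systems; uniqueness; growth classes.
-/

set_option autoImplicit false

namespace Pool.Agent.TH143

open Metric Set Filter Topology Pool.Agent.W603.BP

/-- uniqueness of the solutions of a linear system -/
theorem sol_zero {n : ℕ} {a : ℂ} {r : ℝ} (A : Fin n → Fin n → ℂ → ℂ)
    (hA : ∀ i j, AnalyticOnNhd ℂ (A i j) (ball a r)) (y : ℂ → Fin n → ℂ)
    (hy : ∀ z ∈ ball a r, ∀ i, HasDerivAt (fun w => y w i) (∑ k, A i k z * y z k) z)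
    (hya : ∀ i, y a i = 0) : ∀ z ∈ ball a r, ∀ i, y z i = 0 := by
  intro z hz i
  have hr : 0 < r := dist_nonneg.trans_lt (mem_ball.mp hz)
  let γ : ℝ → ℂ := fun x => a + (x : ℂ) * (z - a)
  have hγc : Continuous γ := by
    simp only [γ]
    fun_prop
  have hγ : ∀ x ∈ Icc (0 : ℝ) 1, γ x ∈ ball a r := by
    intro x hx
    rw [mem_ball, dist_eq_norm] at hz ⊢
    simp only [γ, add_sub_cancel_left]
    rw [norm_mul, Complex.norm_real, Real.norm_of_nonneg hx.1]
    calc x * ‖z - a‖ ≤ 1 * ‖z - a‖ := by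
          gcongr
          exact hx.2
      _ < r := by rw [one_mul]; exact hz
  have hb : ∀ i k, ∃ C, ∀ x ∈ Icc (0 : ℝ) 1, ‖A i k (γ x)‖ ≤ C := by
    intro i k
    apply isCompact_Icc.exists_bound_of_continuousOn
    exact (hA i k).continuousOn.comp hγc.continuousOn hγ
  choose C hC using hb
  have hC0 : ∀ i k, 0 ≤ C i k := fun i k =>
    (norm_nonneg _).trans (hC i k 0 (left_mem_Icc.mpr zero_le_one))
  set M := ∑ i, ∑ k, C i k with hM
  have hM0 : 0 ≤ M := Finset.sum_nonneg fun i _ => Finset.sum_nonneg fun k _ => hC0 i k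
  have hγd : ∀ x : ℝ, HasDerivAt γ (z - a) x := by
    intro x
    have h1 : HasDerivAt (fun x : ℝ => (x : ℂ)) 1 x := by
      simpa using (hasDerivAt_id x).ofReal_comp
    have := (h1.mul_const (z - a)).const_add a
    simpa [γ] using this
  have hYd : ∀ x ∈ Icc (0 : ℝ) 1, HasDerivAt (fun x => y (γ x))
      (fun i => (∑ k, A i k (γ x) * y (γ x) k) * (z - a)) x := by
    intro x hx
    rw [hasDerivAt_pi]
    intro i
    exact (hy (γ x) (hγ x hx) i).comp x (hγd x)
  have hgr := norm_le_gronwallBound_of_norm_deriv_right_le (f := fun x => y (γ x))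
    (f' := fun x => fun i => (∑ k, A i k (γ x) * y (γ x) k) * (z - a)) (δ := 0)
    (K := M * ‖z - a‖) (ε := 0) (a := 0) (b := 1)
    (fun x hx => (hYd x hx).continuousAt.continuousWithinAt)
    (fun x hx => (hYd x ⟨hx.1, hx.2.le⟩).hasDerivWithinAt)
    (by
      have : y (γ 0) = 0 := by
        funext i
        simp only [γ, Complex.ofReal_zero, zero_mul, add_zero]
        exact hya i
      simp only [this, norm_zero, le_refl]) (by
      intro x hx
      have hx' : x ∈ Icc (0 : ℝ) 1 := ⟨hx.1, hx.2.le⟩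
      rw [add_zero, pi_norm_le_iff_of_nonneg (by positivity)]
      intro i
      rw [norm_mul]
      have h1 : ‖∑ k, A i k (γ x) * y (γ x) k‖ ≤ M * ‖y (γ x)‖ := by
        calc ‖∑ k, A i k (γ x) * y (γ x) k‖ ≤ ∑ k, ‖A i k (γ x) * y (γ x) k‖ := norm_sum_le _ _
          _ ≤ ∑ k, C i k * ‖y (γ x)‖ := by
              refine Finset.sum_le_sum fun k _ => ?_
              rw [norm_mul]
              exact mul_le_mul (hC i k x hx') (norm_le_pi_norm _ _) (norm_nonneg _) (hC0 i k)
          _ = (∑ k, C i k) * ‖y (γ x)‖ := by rw [Finset.sum_mul]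
          _ ≤ M * ‖y (γ x)‖ := by
              gcongr
              exact Finset.single_le_sum (f := fun i => ∑ k, C i k)
                (fun i _ => Finset.sum_nonneg fun k _ => hC0 i k) (Finset.mem_univ i)
      calc ‖∑ k, A i k (γ x) * y (γ x) k‖ * ‖z - a‖ ≤ (M * ‖y (γ x)‖) * ‖z - a‖ := by gcongr
        _ = M * ‖z - a‖ * ‖y (γ x)‖ := by ring) 1 (right_mem_Icc.mpr zero_le_one)
  rw [gronwallBound_ε0, zero_mul] at hgr
  have h2 : γ 1 = z := by simp [γ]
  simp only [h2] at hgr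
  have h3 : ‖y z i‖ ≤ 0 := (norm_le_pi_norm (y z) i).trans hgr
  exact norm_le_zero_iff.mp h3

/-- moderate growth at the puncture -/
def Grow (g : ℂ → ℂ) : Prop :=
  ∃ (C : ℝ) (K : ℕ), 0 ≤ C ∧ ∀ᶠ w in 𝓝[≠] (0 : ℂ), ‖g w‖ ≤ Real.exp (C * (‖w‖ ^ K)⁻¹)

theorem Grow.const (c : ℂ) : Grow (fun _ => c) := by
  refine ⟨‖c‖, 0, norm_nonneg _, Eventually.of_forall fun w => ?_⟩
  rw [pow_zero, inv_one, mul_one]
  linarith [Real.add_one_le_exp ‖c‖]

theorem grow_aux {C : ℝ} (hC : 0 ≤ C) {K L : ℕ} (hKL : K ≤ L) {w : ℂ} (hw : w ∈ PB 1) :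
    C * (‖w‖ ^ K)⁻¹ ≤ C * (‖w‖ ^ L)⁻¹ := by
  have h0 : 0 < ‖w‖ := norm_pos_iff.mpr hw.1
  have h1 : ‖w‖ ^ L ≤ ‖w‖ ^ K := pow_le_pow_of_le_one h0.le hw.2.le hKL
  have h2 : (‖w‖ ^ K)⁻¹ ≤ (‖w‖ ^ L)⁻¹ := inv_anti₀ (by positivity) h1
  exact mul_le_mul_of_nonneg_left h2 hC

theorem Grow.mul {f g : ℂ → ℂ} (hf : Grow f) (hg : Grow g) : Grow (fun w => f w * g w) := by
  obtain ⟨C, K, hC, hf⟩ := hf
  obtain ⟨D, L, hD, hg⟩ := hg
  refine ⟨C + D, K + L, by positivity, ?_⟩
  filter_upwards [hf, hg, PB_mem one_pos] with w h1 h2 h3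
  rw [norm_mul, add_mul, Real.exp_add]
  have e1 := grow_aux hC (Nat.le_add_right K L) h3
  have e2 := grow_aux hD (Nat.le_add_left L K) h3
  exact mul_le_mul (h1.trans (Real.exp_le_exp.mpr e1)) (h2.trans (Real.exp_le_exp.mpr e2))
    (norm_nonneg _) (Real.exp_pos _).le

theorem Grow.add {f g : ℂ → ℂ} (hf : Grow f) (hg : Grow g) : Grow (fun w => f w + g w) := by
  obtain ⟨C, K, hC, hf⟩ := hf
  obtain ⟨D, L, hD, hg⟩ := hg
  refine ⟨C + D + 1, K + L, by positivity, ?_⟩
  filter_upwards [hf, hg, PB_mem one_pos] with w h1 h2 h3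
  have e1 := grow_aux hC (Nat.le_add_right K L) h3
  have e2 := grow_aux hD (Nat.le_add_left L K) h3
  have h0 : 0 < ‖w‖ := norm_pos_iff.mpr h3.1
  have h4 : 1 ≤ (‖w‖ ^ (K + L))⁻¹ :=
    (one_le_inv₀ (by positivity)).mpr (pow_le_one₀ h0.le h3.2.le)
  set x := (‖w‖ ^ (K + L))⁻¹ with hx
  have e3 : ‖f w‖ ≤ Real.exp ((C + D) * x) := h1.trans (Real.exp_le_exp.mpr (e1.trans (by
    have : 0 ≤ D * x := by positivity
    linarith)))
  have e4 : ‖g w‖ ≤ Real.exp ((C + D) * x) := h2.trans (Real.exp_le_exp.mpr (e2.trans (by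
    have : 0 ≤ C * x := by positivity
    linarith)))
  calc ‖f w + g w‖ ≤ ‖f w‖ + ‖g w‖ := norm_add_le _ _
    _ ≤ 2 * Real.exp ((C + D) * x) := by linarith
    _ ≤ Real.exp 1 * Real.exp ((C + D) * x) := by
        gcongr
        linarith [Real.add_one_le_exp (1 : ℝ)]
    _ = Real.exp (1 + (C + D) * x) := (Real.exp_add _ _).symm
    _ ≤ Real.exp ((C + D + 1) * x) := by
        rw [Real.exp_le_exp]
        nlinarith

theorem Grow.congr {f g : ℂ → ℂ} (hf : Grow f) (h : ∀ᶠ w in 𝓝[≠] (0 : ℂ), g w = f w) :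
    Grow g := by
  obtain ⟨C, K, hC, hf⟩ := hf
  refine ⟨C, K, hC, ?_⟩
  filter_upwards [hf, h] with w h1 h2
  rw [h2]
  exact h1

theorem Grow.sum {ι : Type*} (s : Finset ι) {f : ι → ℂ → ℂ} (hf : ∀ i ∈ s, Grow (f i)) :
    Grow (fun w => ∑ i ∈ s, f i w) := by
  classical
  induction s using Finset.induction_on with
  | empty => simpa using Grow.const 0
  | insert i s hi ih =>
    simp only [Finset.sum_insert hi]
    exact (hf i (Finset.mem_insert_self i s)).add
      (ih fun j hj => hf j (Finset.mem_insert_of_mem hj))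

theorem Grow.eval {κ : Type*} {f : ℂ → κ → ℂ} (hf : ∀ l, Grow (fun w => f w l))
    (P : MvPolynomial κ ℂ) : Grow (fun w => MvPolynomial.eval (f w) P) := by
  induction P using MvPolynomial.induction_on with
  | C a => simpa using Grow.const a
  | add p q hp hq =>
    simp only [map_add]
    exact hp.add hq
  | mul_X p j hp =>
    simp only [map_mul, MvPolynomial.eval_X]
    exact hp.mul (hf j)

/-- `g` satisfies a nontrivial linear differential equation whose coefficients are meromorphic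
at the origin. -/
def LinODE (g : ℂ → ℂ) : Prop :=
  ∃ (m : ℕ) (a : ℕ → ℂ → ℂ), (∀ k, MeromorphicAt (a k) 0) ∧ (∃ k ≤ m, Nz (a k)) ∧
    ∀ᶠ w in 𝓝[≠] (0 : ℂ), ∑ k ∈ Finset.range (m + 1), a k w * iteratedDeriv k g w = 0

theorem LinODE.normal {g : ℂ → ℂ} (h : LinODE g) :
    ∃ (m : ℕ) (c : ℕ → ℂ → ℂ), (∀ k, MeromorphicAt (c k) 0) ∧
      ∀ᶠ w in 𝓝[≠] (0 : ℂ), iteratedDeriv m g w
        = ∑ k ∈ Finset.range m, c k w * iteratedDeriv k g w := by
  classical
  obtain ⟨m, a, ha, ⟨k0, hk0, hn⟩, h⟩ := h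
  let T := (Finset.range (m + 1)).filter fun k => Nz (a k)
  have hT : T.Nonempty :=
    ⟨k0, Finset.mem_filter.mpr ⟨Finset.mem_range.mpr (Nat.lt_succ_of_le hk0), hn⟩⟩
  set l := T.max' hT with hl
  have hlT : l ∈ T := T.max'_mem hT
  have hlm : l ≤ m := Nat.lt_succ_iff.mp (Finset.mem_range.mp (Finset.mem_filter.mp hlT).1)
  have hlN : Nz (a l) := (Finset.mem_filter.mp hlT).2
  have hbig' : ∀ᶠ w in 𝓝[≠] (0 : ℂ), ∀ k ∈ Finset.range (m + 1), l < k → a k w = 0 := by
    rw [Filter.eventually_all_finset]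
    intro k hk
    by_cases hlk : l < k
    · have hkm : k ≤ m := Nat.lt_succ_iff.mp (Finset.mem_range.mp hk)
      have : ∀ᶠ w in 𝓝[≠] (0 : ℂ), a k w = 0 := by
        by_contra hcon
        have : k ∈ T := Finset.mem_filter.mpr ⟨hk, hcon⟩
        exact absurd (T.le_max' k this) (not_le.mpr hlk)
      filter_upwards [this] with w hw _
      exact hw
    · exact Eventually.of_forall fun w h => absurd h hlk
  refine ⟨l, fun k w => -(a k w / a l w), fun k => ((ha k).fun_div (ha l)).fun_neg, ?_⟩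
  filter_upwards [h, hbig', mero_ne (ha l) hlN] with w h1 h2 h3
  have hsub : Finset.range (l + 1) ⊆ Finset.range (m + 1) := by
    intro k hk
    rw [Finset.mem_range] at hk ⊢
    omega
  rw [← Finset.sum_subset hsub (by
    intro k hk hk'
    have : l < k := by
      rw [Finset.mem_range] at hk'
      omega
    rw [h2 k hk this, zero_mul]), Finset.sum_range_succ] at h1
  have h4 : ∑ k ∈ Finset.range l, -(a k w / a l w) * iteratedDeriv k g w
      = -(a l w)⁻¹ * ∑ k ∈ Finset.range l, a k w * iteratedDeriv k g w := by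
    rw [Finset.mul_sum]
    refine Finset.sum_congr rfl fun k _ => ?_
    field_simp
  rw [h4]
  have h5 : ∑ k ∈ Finset.range l, a k w * iteratedDeriv k g w = -(a l w * iteratedDeriv l g w) := by
    linear_combination h1
  rw [h5]
  field_simp

theorem hasDerivAt_iter {g : ℂ → ℂ} {S : Set ℂ} (hg : AnalyticOnNhd ℂ g S) (k : ℕ) {w : ℂ}
    (hw : w ∈ S) : HasDerivAt (iteratedDeriv k g) (iteratedDeriv (k + 1) g w) w := by
  have h1 : AnalyticOnNhd ℂ (iteratedDeriv k g) S := by
    induction k with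
    | zero => simpa using hg
    | succ k ih =>
      rw [iteratedDeriv_succ]
      exact ih.deriv
  rw [iteratedDeriv_succ]
  exact (h1 w hw).differentiableAt.hasDerivAt

/-- a single system for finitely many functions -/
theorem exists_system {J : Type} [Fintype J] (f : J → ℂ → ℂ) (m : J → ℕ) (c : J → ℕ → ℂ → ℂ) :
    ∃ (n : ℕ) (A : Fin n → Fin n → ℂ → ℂ) (y : ℂ → Fin n → ℂ) (L : J → Fin n → ℂ),
      (∀ i k, ∃ (α ε : ℂ) (j : J) (l : ℕ), ∀ w, A i k w = α + ε * c j l w) ∧
      ∀ w, (∀ j, AnalyticAt ℂ (f j) w) → (∀ j, iteratedDeriv (m j) (f j) w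
          = ∑ k ∈ Finset.range (m j), c j k w * iteratedDeriv k (f j) w) →
        (∀ i, HasDerivAt (fun w => y w i) (∑ k, A i k w * y w k) w) ∧
        ∀ j, f j w = ∑ k, L j k * y w k := by
  classical
  let I := Σ j : J, Fin (m j)
  let e : I ≃ Fin (Fintype.card I) := Fintype.equivFin I
  let A0 : I → I → ℂ → ℂ := fun p q w =>
    if p.1 = q.1 then (if (p.2 : ℕ) + 1 = q.2 then 1 else 0)
      + (if (p.2 : ℕ) + 1 = m p.1 then c p.1 q.2 w else 0) else 0
  let y0 : ℂ → I → ℂ := fun w p => iteratedDeriv p.2 (f p.1) w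
  refine ⟨Fintype.card I, fun i k => A0 (e.symm i) (e.symm k), fun w i => y0 w (e.symm i),
    fun j i => if (e.symm i).1 = j ∧ ((e.symm i).2 : ℕ) = 0 then 1 else 0, ?_, ?_⟩
  · intro i k
    refine ⟨if (e.symm i).1 = (e.symm k).1 then
      (if ((e.symm i).2 : ℕ) + 1 = (e.symm k).2 then 1 else 0) else 0,
      if (e.symm i).1 = (e.symm k).1 then
      (if ((e.symm i).2 : ℕ) + 1 = m (e.symm i).1 then 1 else 0) else 0,
      (e.symm i).1, (e.symm k).2, fun w => ?_⟩
    simp only [A0]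
    split_ifs <;> ring
  · intro w hf h
    constructor
    · intro i
      have h1 : HasDerivAt (fun w => y0 w (e.symm i))
          (iteratedDeriv (((e.symm i).2 : ℕ) + 1) (f (e.symm i).1) w) w := by
        obtain ⟨U, hU, hUf⟩ := (hf (e.symm i).1).exists_mem_nhds_analyticOnNhd
        exact hasDerivAt_iter hUf _ (mem_of_mem_nhds hU)
      refine h1.congr_deriv ?_
      rw [Equiv.sum_comp e.symm (fun q => A0 (e.symm i) q w * y0 w q)]
      obtain ⟨j, k⟩ := e.symm i
      rw [Fintype.sum_sigma, Finset.sum_eq_single j]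
      · simp only [A0, y0, if_true, add_mul, Finset.sum_add_distrib]
        by_cases hk : (k : ℕ) + 1 = m j
        · have h2 : ∑ x : Fin (m j), (if (k : ℕ) + 1 = (x : ℕ) then (1 : ℂ) else 0)
              * iteratedDeriv (x : ℕ) (f j) w = 0 := by
            apply Finset.sum_eq_zero
            intro x _
            rw [if_neg (by have := x.2; omega), zero_mul]
          rw [h2, zero_add, hk, h j, Finset.sum_range]
          refine Finset.sum_congr rfl fun x _ => ?_
          simp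
        · have hk' : (k : ℕ) + 1 < m j := lt_of_le_of_ne k.2 hk
          rw [Finset.sum_eq_single (⟨(k : ℕ) + 1, hk'⟩ : Fin (m j))]
          · simp [hk]
          · intro x _ hx
            rw [if_neg, zero_mul]
            intro h3
            apply hx
            exact Fin.ext h3.symm
          · intro h3
            exact absurd (Finset.mem_univ _) h3
      · intro j' _ hj'
        apply Finset.sum_eq_zero
        intro x _
        simp only [A0]
        rw [if_neg (Ne.symm hj'), zero_mul]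
      · intro h3
        exact absurd (Finset.mem_univ _) h3
    · intro j
      rw [Equiv.sum_comp e.symm
        (fun q => (if q.1 = j ∧ (q.2 : ℕ) = 0 then (1 : ℂ) else 0) * y0 w q)]
      rw [Fintype.sum_sigma, Finset.sum_eq_single j]
      · simp only [y0, true_and]
        by_cases hm : m j = 0
        · have h1 := h j
          rw [hm, Finset.range_zero, Finset.sum_empty, iteratedDeriv_zero] at h1
          rw [h1]
          symm
          apply Finset.sum_eq_zero
          intro x _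
          have h2 := x.2
          omega
        · rw [Finset.sum_eq_single (⟨0, Nat.pos_of_ne_zero hm⟩ : Fin (m j))]
          · simp
          · intro x _ hx
            rw [if_neg, zero_mul]
            intro h3
            apply hx
            exact Fin.ext h3
          · intro h3
            exact absurd (Finset.mem_univ _) h3
      · intro j' _ hj'
        apply Finset.sum_eq_zero
        intro x _
        rw [if_neg (fun h3 => hj' h3.1), zero_mul]
      · intro h3
        exact absurd (Finset.mem_univ _) h3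

/-- `f` is a constant linear image of a solution of a linear system with coefficients meromorphic
at the origin -/
def LinSys {J : Type} (f : ℂ → J → ℂ) : Prop :=
  ∃ (n : ℕ) (A : Fin n → Fin n → ℂ → ℂ) (y : ℂ → Fin n → ℂ) (L : J → Fin n → ℂ),
    (∀ i k, MeromorphicAt (A i k) 0) ∧
    (∀ᶠ w in 𝓝[≠] (0 : ℂ), ∀ i, HasDerivAt (fun w => y w i) (∑ k, A i k w * y w k) w) ∧
    ∀ᶠ w in 𝓝[≠] (0 : ℂ), ∀ j, f w j = ∑ k, L j k * y w k

theorem linSys_of_linODE {J : Type} [Fintype J] (f : ℂ → J → ℂ) {δ : ℝ} (hδ : 0 < δ)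
    (hf : ∀ j, AnalyticOnNhd ℂ (fun w => f w j) (PB δ)) (hlin : ∀ j, LinODE (fun w => f w j)) :
    LinSys f := by
  choose m c hc h using fun j => (hlin j).normal
  obtain ⟨n, A, y, L, h1, h2⟩ := exists_system (fun j w => f w j) m c
  have h3 : ∀ᶠ w in 𝓝[≠] (0 : ℂ),
      (∀ i, HasDerivAt (fun w => y w i) (∑ k, A i k w * y w k) w) ∧
      ∀ j, f w j = ∑ k, L j k * y w k := by
    filter_upwards [eventually_all.mpr h, PB_mem hδ] with w hw hwδ
    exact h2 w (fun j => hf j w hwδ) hw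
  refine ⟨n, A, y, L, fun i k => ?_, h3.mono fun w hw => hw.1, h3.mono fun w hw => hw.2⟩
  obtain ⟨α, ε, j, l, hA⟩ := h1 i k
  rw [show A i k = fun w => α + ε * c j l w from funext hA]
  exact (MeromorphicAt.const _ 0).fun_add ((MeromorphicAt.const _ 0).fun_mul (hc j l))

/-- The function `g` satisfies a nontrivial linear differential equation with polynomial
coefficients. -/
def PolODE (g : ℂ → ℂ) : Prop :=
  ∃ (m : ℕ) (a : ℕ → Polynomial ℂ), (∃ k ≤ m, a k ≠ 0) ∧
    ∀ z, ∑ k ∈ Finset.range (m + 1), (a k).eval z * iteratedDeriv k g z = 0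

theorem mero_poly_inv (P : Polynomial ℂ) : MeromorphicAt (fun w : ℂ => P.eval w⁻¹) 0 := by
  have h1 : (fun w : ℂ => P.eval w⁻¹) = fun w => ∑ i ∈ Finset.range (P.natDegree + 1),
      P.coeff i * w⁻¹ ^ i := by
    funext w
    rw [Polynomial.eval_eq_sum_range]
  rw [h1]
  apply MeromorphicAt.fun_sum
  intro i _
  exact (MeromorphicAt.const _ 0).fun_mul ((MeromorphicAt.id 0).fun_inv.fun_pow i)

theorem ev_poly_inv {P : Polynomial ℂ} (hP : P ≠ 0) : ∀ᶠ w in 𝓝[≠] (0 : ℂ), P.eval w⁻¹ ≠ 0 := by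
  rcases (mero_poly_inv P).eventually_eq_zero_or_eventually_ne_zero with h | h
  · exfalso
    obtain ⟨δ, hδ, h1⟩ := ev_iff.mp h
    apply hP
    apply Polynomial.eq_zero_of_infinite_isRoot
    have h2 : {z : ℂ | δ⁻¹ < ‖z‖} ⊆ {z | P.IsRoot z} := by
      intro z hz
      have hz' : δ⁻¹ < ‖z‖ := hz
      have := h1 z⁻¹ (inv_mem_PB hδ hz')
      rwa [inv_inv] at this
    refine Set.Infinite.mono h2 ?_
    have h3 : Set.Infinite (Set.range fun n : ℕ => ((δ⁻¹ + 1 + n : ℝ) : ℂ)) := by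
      apply Set.infinite_range_of_injective
      intro a b hab
      have h4 : (δ⁻¹ + 1 + a : ℝ) = δ⁻¹ + 1 + b := Complex.ofReal_injective hab
      exact_mod_cast (add_left_cancel h4)
    refine h3.mono ?_
    rintro _ ⟨n, rfl⟩
    change δ⁻¹ < ‖((δ⁻¹ + 1 + n : ℝ) : ℂ)‖
    rw [Complex.norm_real, Real.norm_of_nonneg (by positivity)]
    have : (0 : ℝ) ≤ n := Nat.cast_nonneg n
    linarith
  · exact h

theorem PolODE.normal {g : ℂ → ℂ} (h : PolODE g) :
    ∃ (m : ℕ) (c : ℕ → ℂ → ℂ), (∀ k, MeromorphicAt (fun w => c k w⁻¹) 0) ∧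
      ∀ᶠ w in 𝓝[≠] (0 : ℂ), iteratedDeriv m g w⁻¹
        = ∑ k ∈ Finset.range m, c k w⁻¹ * iteratedDeriv k g w⁻¹ := by
  classical
  obtain ⟨m, a, ⟨k0, hk0, hn⟩, h⟩ := h
  let T := (Finset.range (m + 1)).filter fun k => a k ≠ 0
  have hT : T.Nonempty :=
    ⟨k0, Finset.mem_filter.mpr ⟨Finset.mem_range.mpr (Nat.lt_succ_of_le hk0), hn⟩⟩
  set l := T.max' hT with hl
  have hlT : l ∈ T := T.max'_mem hT
  have hlm : l ≤ m := Nat.lt_succ_iff.mp (Finset.mem_range.mp (Finset.mem_filter.mp hlT).1)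
  have hlN : a l ≠ 0 := (Finset.mem_filter.mp hlT).2
  have hbig : ∀ k ∈ Finset.range (m + 1), k ∉ Finset.range (l + 1) → a k = 0 := by
    intro k hk hkl
    by_contra hcon
    have : k ∈ T := Finset.mem_filter.mpr ⟨hk, hcon⟩
    have h2 := T.le_max' k this
    rw [Finset.mem_range] at hkl
    omega
  refine ⟨l, fun k z => -((a k).eval z / (a l).eval z), fun k =>
    ((mero_poly_inv (a k)).fun_div (mero_poly_inv (a l))).fun_neg, ?_⟩
  filter_upwards [ev_poly_inv hlN] with w hw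
  set z := w⁻¹ with hz
  have h1 := h z
  have hsub : Finset.range (l + 1) ⊆ Finset.range (m + 1) := by
    intro k hk
    rw [Finset.mem_range] at hk ⊢
    omega
  rw [← Finset.sum_subset hsub (by
    intro k hk hk'
    rw [hbig k hk hk', Polynomial.eval_zero, zero_mul]), Finset.sum_range_succ] at h1
  have h4 : ∑ k ∈ Finset.range l, -((a k).eval z / (a l).eval z) * iteratedDeriv k g z
      = -((a l).eval z)⁻¹ * ∑ k ∈ Finset.range l, (a k).eval z * iteratedDeriv k g z := by
    rw [Finset.mul_sum]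
    refine Finset.sum_congr rfl fun k _ => ?_
    field_simp
  rw [h4]
  have h5 : ∑ k ∈ Finset.range l, (a k).eval z * iteratedDeriv k g z
      = -((a l).eval z * iteratedDeriv l g z) := by
    linear_combination h1
  rw [h5]
  field_simp

theorem linSys_of_polODE {J : Type} [Fintype J] (f : ℂ → J → ℂ)
    (hf : ∀ j, Differentiable ℂ (fun w => f w j)) (hlin : ∀ j, PolODE (fun w => f w j)) :
    LinSys (fun w => f w⁻¹) := by
  choose m c hc h using fun j => (hlin j).normal
  obtain ⟨n, A, y, L, h1, h2⟩ := exists_system (fun j w => f w j) m c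
  have h3 : ∀ᶠ w in 𝓝[≠] (0 : ℂ),
      (∀ i, HasDerivAt (fun w => y w i) (∑ k, A i k w⁻¹ * y w⁻¹ k) w⁻¹) ∧
      ∀ j, f w⁻¹ j = ∑ k, L j k * y w⁻¹ k := by
    filter_upwards [eventually_all.mpr h] with w hw
    exact h2 w⁻¹ (fun j => (hf j).analyticAt _) hw
  refine ⟨n, fun i k w => -(w ^ 2)⁻¹ * A i k w⁻¹, fun w => y w⁻¹, L, fun i k => ?_, ?_,
    h3.mono fun w hw => hw.2⟩
  · obtain ⟨α, ε, j, l, hA⟩ := h1 i k
    change MeromorphicAt (fun w => -(w ^ 2)⁻¹ * A i k w⁻¹) 0
    rw [show (fun w => -(w ^ 2)⁻¹ * A i k w⁻¹) = fun w => -(w ^ 2)⁻¹ * (α + ε * c j l w⁻¹) from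
      funext fun w => by rw [hA]]
    exact ((MeromorphicAt.id 0).fun_pow 2).fun_inv.fun_neg.fun_mul
      ((MeromorphicAt.const _ 0).fun_add ((MeromorphicAt.const _ 0).fun_mul (hc j l)))
  · filter_upwards [h3, self_mem_nhdsWithin] with w hw hw0 i
    have hw0' : w ≠ 0 := hw0
    have := (hw.1 i).comp w (hasDerivAt_inv hw0')
    refine this.congr_deriv ?_
    rw [Finset.sum_mul]
    refine Finset.sum_congr rfl fun k _ => ?_
    ring

end Pool.Agent.TH143
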