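import Mathlib
import Pool.Agent.TH143.Local
import Pool.Agent.TH143.Ode
import Pool.Agent.TH143.Sys

/-!
Rational curves through the points of a curve given by solutions of linear differential equations
on a punctured disc.
-/

set_option autoImplicit false

namespace Pool.Agent.TH143

open MvPolynomial Metric Set Filter Topology Pool.Agent.W603.BP
open Pool.Agent.H159R3.Exp (Laur)

/-- coefficients: analytic on the punctured disc and meromorphic at its centre -/
def Coef (δ : ℝ) : Type := {b : ℂ → ℂ // AnalyticOnNhd ℂ b (PB δ) ∧ MeromorphicAt b 0}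

/-- the ring of coefficients restricted to `S` -/
def coefAlg (δ : ℝ) (S : Set ℂ) : Subalgebra ℂ (Hol S) where
  carrier := {g | ∃ b : Coef δ, ∀ z : S, evz z g = b.1 z}
  mul_mem' := by
    rintro f g ⟨b, hb⟩ ⟨c, hc⟩
    exact ⟨⟨fun z => b.1 z * c.1 z, b.2.1.mul c.2.1, b.2.2.fun_mul c.2.2⟩, fun z => by
      rw [map_mul, hb, hc]⟩
  add_mem' := by
    rintro f g ⟨b, hb⟩ ⟨c, hc⟩
    exact ⟨⟨fun z => b.1 z + c.1 z, b.2.1.add c.2.1, b.2.2.fun_add c.2.2⟩, fun z => by
      rw [map_add, hb, hc]⟩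
  algebraMap_mem' := fun c => ⟨⟨fun _ => c, analyticOnNhd_const, MeromorphicAt.const _ _⟩, fun z => by
    rw [AlgHom.commutes]
    rfl⟩

theorem lin_global {N : ℕ} (f : ℂ → Fin (N + 1) → ℂ)
    (hf : ∀ j, AnalyticOnNhd ℂ (fun w => f w j) (PB 1)) (hlin : LinSys f)
    (Q : MvPolynomial (Fin (N + 1)) ℂ) (hQ : ∀ w ∈ PB 1, eval (f w) Q ≠ 0)
    (j0 j1 : Fin (N + 1)) (h0 : Nz (fun w => f w j0))
    (h1 : ¬ MRel (fun w => f w j1) (fun w => f w j0)) :
    ∃ δ > 0, δ ≤ 1 ∧ ∀ z0 ∈ PB δ, ∀ᶠ z in 𝓝[≠] z0, ∃ w : ℂ → Fin (N + 1) → ℂ,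
      (∀ j, Laur (fun t => w t j)) ∧ (∀ j, w 1 j = f z j) ∧ (∀ t, t ≠ 0 → eval (w t) Q ≠ 0) ∧
      (∃ t, t ≠ 0 ∧ w t j1 * w 1 j0 ≠ w t j0 * w 1 j1) ∧
      ∀ R : MvPolynomial (Fin (N + 1)) ℂ, (∀ z ∈ PB 1, eval (f z) R = 0) →
        ∀ t, t ≠ 0 → eval (w t) R = 0 := by
  classical
  obtain ⟨n, A, y, L, hA, hy, hfL⟩ := hlin
  have hAan : ∀ᶠ w in 𝓝[≠] (0 : ℂ), ∀ i k, AnalyticAt ℂ (A i k) w := by
    rw [eventually_all]
    intro i
    rw [eventually_all]
    intro k
    exact Pun.mero (hA i k)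
  -- the logarithmic derivative of `Q (f)`
  have hqan : AnalyticOnNhd ℂ (fun w => eval (f w) Q) (PB 1) := by
    intro w hw
    have : (fun w => eval (f w) Q) = fun w => ∑ α ∈ Q.support, Q.coeff α * ∏ j, f w j ^ α j := by
      funext w
      rw [eval_eq']
    rw [this]
    apply Finset.analyticAt_fun_sum
    intro α _
    apply analyticAt_const.fun_mul
    apply Finset.analyticAt_fun_prod
    intro j _
    exact (hf j w hw).fun_pow _
  obtain ⟨C, K, hC, hgr⟩ := growth_sol A hA y hy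
  have hfgr : ∀ j, Grow (fun w => f w j) := by
    intro j
    have h2 : Grow (fun w => ∑ k, L j k * y w k) := Grow.sum _ fun k _ =>
      (Grow.const _).mul ⟨C, K, hC, by filter_upwards [hgr] with w hw using hw k⟩
    exact h2.congr (by filter_upwards [hfL] with w hw using hw j)
  obtain ⟨C', K', hC', hgrQ⟩ := Grow.eval hfgr Q
  obtain ⟨b, hb, hbd⟩ := logderiv_mero hqan hQ hC' hgrQ
  obtain ⟨δ0, hδ0, hall⟩ := ev_iff.mp (((hy.and hfL).and hAan).and (hbd.and (Pun.mero hb)))
  set δ := min δ0 1 with hδ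
  have hδpos : 0 < δ := by positivity
  have hδ1 : PB δ ⊆ PB 1 := PB_mono (min_le_right _ _)
  have hδ0' : PB δ ⊆ PB δ0 := PB_mono (min_le_left _ _)
  refine ⟨δ, hδpos, min_le_right _ _, ?_⟩
  intro z0 hz0
  -- the coefficients
  let bb : Coef δ → ℂ → ℂ := fun b => b.1
  let dd : Coef δ → Coef δ := fun b => ⟨deriv b.1, b.2.1.deriv, b.2.2.deriv⟩
  let AA : Fin n → Fin n → Coef δ := fun i k =>
    ⟨A i k, fun w hw => (hall w (hδ0' hw)).1.2 i k, hA i k⟩
  let iq : Coef δ := ⟨b, fun w hw => (hall w (hδ0' hw)).2.2, hb⟩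
  -- fundamental matrix
  obtain ⟨r, hr, hrS, U, hU, hdet⟩ := exists_fund (PB_open δ) (fun z => Matrix.of fun i k => A i k z)
    (fun i k w hw => (hall w (hδ0' hw)).1.2 i k) hz0
  set S := ball z0 r with hS
  have hz0S : z0 ∈ S := mem_ball_self hr
  have hSo : IsOpen S := isOpen_ball
  have hSc : IsPreconnected S := (convex_ball z0 r).isPreconnected
  set c : Fin n → ℂ := Matrix.mulVec (U z0)⁻¹ (y z0) with hc
  have hyU : ∀ z ∈ S, ∀ i, y z i = ∑ l, U z i l * c l := by
    have h2 := sol_zero (a := z0) (r := r) A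
      (fun i k w hw => (hall w (hδ0' (hrS hw))).1.2 i k)
      (fun z i => y z i - ∑ l, U z i l * c l) (by
        intro z hz i
        have h3 := (hall z (hδ0' (hrS hz))).1.1.1 i
        have h4 : HasDerivAt (fun z => ∑ l, U z i l * c l)
            (∑ l, (∑ k, A i k z * U z k l) * c l) z := by
          apply HasDerivAt.fun_sum
          intro l _
          have h5 := (hU z hz i l).mul_const (c l)
          rw [Matrix.mul_apply] at h5
          exact h5
        refine (h3.fun_sub h4).congr_deriv ?_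
        simp only [mul_sub, Finset.sum_sub_distrib, Finset.sum_mul, Finset.mul_sum]
        congr 1
        rw [Finset.sum_comm]
        refine Finset.sum_congr rfl fun k _ => Finset.sum_congr rfl fun l _ => ?_
        ring) (by
        intro i
        have h6 : ∑ l, U z0 i l * c l = y z0 i := by
          have h7 : Matrix.mulVec (U z0) c = y z0 := by
            rw [hc, Matrix.mulVec_mulVec, Matrix.mul_nonsing_inv _ ((hdet z0 hz0S).isUnit),
              Matrix.one_mulVec]
          rw [← h7]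
          rfl
        rw [h6, sub_self])
    intro z hz i
    exact sub_eq_zero.mp (h2 z hz i)
  let Φ : Fin (N + 1) → MvPolynomial (Coef δ ⊕ (Fin n × Fin n)) ℂ := fun j =>
    ∑ k, ∑ l, MvPolynomial.C (L j k * c l) * X (Sum.inr (k, l))
  have hΦ : ∀ z ∈ S, ∀ j, eval (vv bb U z) (Φ j) = f z j := by
    intro z hz j
    rw [(hall z (hδ0' (hrS hz))).1.1.2 j]
    simp only [Φ, map_sum, map_mul, eval_C, eval_X, vv, Sum.elim_inr]
    refine Finset.sum_congr rfl fun k _ => ?_
    rw [hyU z hz k, Finset.mul_sum]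
    refine Finset.sum_congr rfl fun l _ => ?_
    ring
  have hFS : ∀ z ∈ S, (fun j => eval (vv bb U z) (Φ j)) = f z := fun z hz => funext (hΦ z hz)
  have hSPB : S ⊆ PB δ := hrS
  have hsub : ∀ j, AnalyticOnNhd ℂ (fun w => f w j) (PB δ) := fun j => (hf j).mono hδ1
  have key := local_curve hSo hSc ⟨z0, hz0S⟩ bb (fun i => i.2.1.mono hSPB) dd
    (fun i z hz => (i.2.1 z (hSPB hz)).differentiableAt.hasDerivAt) AA U
    (fun z hz i j => by
      have := hU z hz i j
      rw [Matrix.mul_apply] at this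
      exact this) hdet (coefAlg δ S) (fun i => ⟨i, fun z => rfl⟩) Φ j0 j1
    (by
      by_contra hcon
      push Not at hcon
      have h2 : ∀ z ∈ S, f z j0 = 0 := fun z hz => by rw [← hΦ z hz]; exact hcon z hz
      have h3 : (fun w => f w j0) =ᶠ[𝓝 z0] 0 := by
        filter_upwards [hSo.mem_nhds hz0S] with z hz
        exact h2 z hz
      have h4 := (hsub j0).eqOn_zero_of_preconnected_of_eventuallyEq_zero (PB_preconn hδpos) hz0 h3
      exact h0 (ev_iff.mpr ⟨δ, hδpos, fun w hw => h4 hw⟩))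
    (by
      intro m cc hcc
      choose bk hbk using fun k => (cc k).2
      have h2 : ∀ z ∈ S, ∑ k ∈ Finset.range (m + 1),
          (bk k).1 z * f z j1 ^ k * f z j0 ^ (m - k) = 0 := by
        intro z hz
        refine (Finset.sum_congr rfl fun k _ => ?_).trans (hcc ⟨z, hz⟩)
        rw [hbk k ⟨z, hz⟩, hΦ z hz, hΦ z hz]
      have h3 : AnalyticOnNhd ℂ (fun z => ∑ k ∈ Finset.range (m + 1),
          (bk k).1 z * f z j1 ^ k * f z j0 ^ (m - k)) (PB δ) := by
        intro z hz
        apply Finset.analyticAt_fun_sum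
        intro k _
        exact (((bk k).2.1 z hz).fun_mul ((hsub j1 z hz).fun_pow k)).fun_mul
          ((hsub j0 z hz).fun_pow _)
      have h4 := h3.eqOn_zero_of_preconnected_of_eventuallyEq_zero (PB_preconn hδpos) hz0 (by
        filter_upwards [hSo.mem_nhds hz0S] with z hz
        exact h2 z hz)
      have h5 : ∀ k ≤ m, ¬ Nz (bk k).1 := by
        intro k hk hnz
        apply h1
        exact mrel_of_alg (on_pun one_pos (hf j1)) (on_pun one_pos (hf j0)) h0 m
          (fun k => (bk k).1) (fun k => (bk k).2.2) ⟨k, hk, hnz⟩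
          (ev_iff.mpr ⟨δ, hδpos, fun w hw => h4 hw⟩)
      intro k hk
      have h6 : ∀ᶠ w in 𝓝[≠] (0 : ℂ), (bk k).1 w = 0 := not_not.mp (h5 k hk)
      have h7 := eq_zero_on hδpos (bk k).2.1 h6
      apply Subtype.ext
      apply hol_ext
      intro z
      rw [hbk k z, h7 z (hSPB z.2)]
      rfl)
    Q iq (fun z hz => by rw [hFS z hz]; exact hQ z (hδ1 (hSPB hz)))
    (fun z hz => by
      rw [hFS z hz]
      have h2 := (hall z (hδ0' (hSPB hz))).2.1
      refine h2.congr_of_eventuallyEq ?_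
      filter_upwards [hSo.mem_nhds hz] with x hx
      rw [hFS x hx]) z0 hz0S
  filter_upwards [key, mem_nhdsWithin_of_mem_nhds (hSo.mem_nhds hz0S)] with z hz hzS
  obtain ⟨w, hw1, hw2, hw3, hw4, hw5⟩ := hz
  refine ⟨w, hw1, fun j => by rw [hw2, hΦ z hzS], hw3, hw4, fun R hR => hw5 R ?_⟩
  intro x hx
  rw [hFS x hx]
  exact hR x (hδ1 (hSPB hx))

end Pool.Agent.TH143
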