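import Mathlib
import Pool.Agent.TH143.Global
import Pool.Agent.H159R3.Exp.Rational
import Pool.Agent.W603.BP.Extn

/-!
Morphisms from the multiplicative group through the points of curves given by linear differential
equations.
-/

set_option autoImplicit false

namespace Pool.Agent.TH143

open MvPolynomial Metric Set Filter Topology Pool.Agent.W603.BP
open Pool.Agent.H159R3.Exp (Laur)

/-- The point with homogeneous coordinates `x` lies on the quasi-projective variety
`F = 0`, `Q ≠ 0`. -/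
def On {N : ℕ} {ι : Type} (F : ι → MvPolynomial (Fin (N + 1)) ℂ) (Q : MvPolynomial (Fin (N + 1)) ℂ)
    (x : Fin (N + 1) → ℂ) : Prop :=
  (∀ i, eval x (F i) = 0) ∧ eval x Q ≠ 0

/-- The polynomials `P` without common zeros outside the origin define a nonconstant morphism from
the multiplicative group to the variety `F = 0`, `Q ≠ 0`. -/
structure IsGmCurve {N : ℕ} {ι : Type} (F : ι → MvPolynomial (Fin (N + 1)) ℂ)
    (Q : MvPolynomial (Fin (N + 1)) ℂ) (P : Fin (N + 1) → Polynomial ℂ) : Prop where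
  ne : ∀ t, t ≠ 0 → ∃ j, (P j).eval t ≠ 0
  mem : ∀ t, t ≠ 0 → On F Q (fun j => (P j).eval t)
  nonconst : ∃ s t, s ≠ 0 ∧ t ≠ 0 ∧ ∃ j k, (P j).eval s * (P k).eval t ≠ (P k).eval s * (P j).eval t

/-- The morphism passes through the point with homogeneous coordinates `x`. -/
def Through {N : ℕ} (P : Fin (N + 1) → Polynomial ℂ) (x : Fin (N + 1) → ℂ) : Prop :=
  ∃ t c : ℂ, t ≠ 0 ∧ c ≠ 0 ∧ ∀ j, (P j).eval t = c * x j

variable {N : ℕ} {ι : Type}

theorem gm_of_laur (F : ι → MvPolynomial (Fin (N + 1)) ℂ) (hF : ∀ i, ∃ d, (F i).IsHomogeneous d)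
    (Q : MvPolynomial (Fin (N + 1)) ℂ) {e : ℕ} (hQ : Q.IsHomogeneous e)
    (w : ℂ → Fin (N + 1) → ℂ) (hw : ∀ j, Laur (fun t => w t j)) (hw1 : w 1 ≠ 0)
    (hwF : ∀ i, ∀ t, t ≠ 0 → eval (w t) (F i) = 0) (hwQ : ∀ t, t ≠ 0 → eval (w t) Q ≠ 0)
    (hnc : ∃ t, t ≠ 0 ∧ ∃ j0 j1, w t j1 * w 1 j0 ≠ w t j0 * w 1 j1) :
    ∃ P : Fin (N + 1) → Polynomial ℂ, (∀ t, ∃ j, (P j).eval t ≠ 0) ∧ IsGmCurve F Q P ∧
      Through P (w 1) := by
  obtain ⟨D, P, c, hD, hDj, hne, hc, hfin⟩ := Pool.Agent.H159R3.Exp.reduce w hw hw1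
  have hmem : ∀ i t, eval (fun j => (P j).eval t) (F i) = 0 := by
    intro i t
    obtain ⟨d, hd⟩ := hF i
    have h1 := Pool.Agent.H159R3.Exp.reduce_mem w D P c hD hc hfin (F i) hd (hwF i) 1 t
    have h2 : (fun j => Pool.Agent.H159R3.Exp.hom D (P j) 1 t) = fun j => (P j).eval t := by
      funext j
      rw [Pool.Agent.H159R3.Exp.hom_of_ne D (P j) (hD j) 1 t one_ne_zero]
      simp
    rw [h2] at h1
    exact h1
  have hw' : ∀ t, t ≠ 0 → w t = fun j => c t * (P j).eval t := fun t ht => funext (hc t ht)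
  have hcne : ∀ t, t ≠ 0 → w t ≠ 0 → c t ≠ 0 := by
    intro t ht h h0
    apply h
    rw [hw' t ht]
    funext j
    simp [h0]
  have hc1 : c 1 ≠ 0 := hcne 1 one_ne_zero hw1
  refine ⟨P, hne, ⟨fun t _ => hne t, fun t ht => ⟨fun i => hmem i t, ?_⟩, ?_⟩, ?_⟩
  · intro h0
    apply hwQ t ht
    rw [hw' t ht, Pool.Agent.H159R3.Exp.eval_smul_homog hQ, h0, mul_zero]
  · obtain ⟨t, ht, j0, j1, h⟩ := hnc
    refine ⟨t, 1, ht, one_ne_zero, j1, j0, ?_⟩
    intro h2
    apply h
    rw [hc t ht, hc t ht, hc 1 one_ne_zero, hc 1 one_ne_zero]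
    linear_combination c t * c 1 * h2
  · refine ⟨1, (c 1)⁻¹, one_ne_zero, inv_ne_zero hc1, fun j => ?_⟩
    rw [hc 1 one_ne_zero]
    field_simp

/-- curves on the punctured disc -/
theorem punct_main (F : ι → MvPolynomial (Fin (N + 1)) ℂ) (hF : ∀ i, ∃ d, (F i).IsHomogeneous d)
    (Q : MvPolynomial (Fin (N + 1)) ℂ) {e : ℕ} (hQ : Q.IsHomogeneous e)
    (f : ℂ → Fin (N + 1) → ℂ) (hf : ∀ j, AnalyticOnNhd ℂ (fun w => f w j) (PB 1))
    (hne : ∀ w ∈ PB 1, f w ≠ 0) (hX : ∀ w ∈ PB 1, On F Q (f w)) (hlin : LinSys f)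
    (hess : ¬ Extends f) :
    ∃ δ > 0, δ ≤ 1 ∧ ∀ z0 ∈ PB δ, ∀ᶠ z in 𝓝[≠] z0, ∃ P, (∀ t, ∃ j, (P j).eval t ≠ 0) ∧
      IsGmCurve F Q P ∧ Through P (f z) := by
  obtain ⟨j1, j0, h1, h0, hm⟩ : ∃ j k, Nz (fun w => f w j) ∧ Nz (fun w => f w k) ∧
      ¬ MRel (fun w => f w j) (fun w => f w k) := by
    by_contra hcon
    push Not at hcon
    exact hess (extends_of f hf hne hcon)
  obtain ⟨δ, hδ, hδ1, h⟩ := lin_global f hf hlin Q (fun w hw => (hX w hw).2) j0 j1 h0 hm
  refine ⟨δ, hδ, hδ1, fun z0 hz0 => ?_⟩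
  have hPB : ∀ᶠ z in 𝓝[≠] z0, z ∈ PB δ := mem_nhdsWithin_of_mem_nhds ((PB_open δ).mem_nhds hz0)
  filter_upwards [h z0 hz0, hPB] with z hz hzδ
  obtain ⟨w, hw, hw1, hwQ, ⟨t, ht, hnc⟩, hR⟩ := hz
  have hzf : w 1 = f z := funext hw1
  obtain ⟨P, hP, hP1, hP2⟩ := gm_of_laur F hF Q hQ w hw (by rw [hzf]; exact hne z (PB_mono hδ1 hzδ))
    (fun i t ht => hR (F i) (fun x hx => (hX x hx).1 i) t ht) hwQ ⟨t, ht, j0, j1, hnc⟩
  refine ⟨P, hP, hP1, ?_⟩
  rw [← hzf]
  exact hP2

theorem poly_of_growth (f : ℂ → ℂ) (hf : Differentiable ℂ f) (C : ℝ) (N : ℕ)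
    (hb : ∀ z, ‖f z‖ ≤ C * (1 + ‖z‖) ^ N) : ∃ p : Polynomial ℂ, ∀ z, f z = p.eval z := by
  have hC : 0 ≤ C := by
    have := (norm_nonneg _).trans (hb 0)
    simpa using this
  have hzero : ∀ n, N < n → iteratedDeriv n f 0 = 0 := by
    intro n hn
    have hbound : ∀ R : ℝ, 1 ≤ R → ‖iteratedDeriv n f 0‖ ≤ (n.factorial * C * 2 ^ N) / R := by
      intro R hR
      have hR0 : 0 < R := lt_of_lt_of_le one_pos hR
      have h1 := Complex.norm_iteratedDeriv_le_of_forall_mem_sphere_norm_le (c := 0)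
        (C := C * (2 * R) ^ N) n hR0 hf.diffContOnCl (fun z hz => by
          have hz' : ‖z‖ = R := by simpa using hz
          refine (hb z).trans ?_
          rw [hz']
          gcongr
          linarith)
      refine h1.trans ?_
      rw [div_le_div_iff₀ (by positivity) hR0]
      have h2 : R ^ N * R ≤ R ^ n := by
        rw [← pow_succ]
        exact pow_le_pow_right₀ hR hn
      calc n.factorial * (C * (2 * R) ^ N) * R = (n.factorial * C * 2 ^ N) * (R ^ N * R) := by
            rw [mul_pow]; ring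
        _ ≤ (n.factorial * C * 2 ^ N) * R ^ n := by gcongr
    have hlim : Tendsto (fun R : ℝ => (n.factorial * C * 2 ^ N) / R) atTop (𝓝 0) :=
      tendsto_const_nhds.div_atTop tendsto_id
    have : ‖iteratedDeriv n f 0‖ ≤ 0 :=
      ge_of_tendsto hlim ((eventually_ge_atTop 1).mono fun R hR => hbound R hR)
    exact norm_le_zero_iff.1 this
  refine ⟨∑ n ∈ Finset.range (N + 1), Polynomial.C ((n.factorial : ℂ)⁻¹ * iteratedDeriv n f 0) *
    Polynomial.X ^ n, fun z => ?_⟩
  have h := Complex.taylorSeries_eq_of_entire' 0 z hf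
  rw [← h, tsum_eq_sum (s := Finset.range (N + 1))]
  · rw [Polynomial.eval_finsetSum]
    refine Finset.sum_congr rfl fun n _ => ?_
    simp
  · intro n hn
    rw [hzero n (by simpa using hn)]
    simp

/-- A holomorphic map from the line to projective space which extends to infinity is given by
polynomials. -/
theorem rational_of_extends (f : ℂ → Fin (N + 1) → ℂ) (hf : ∀ j, Differentiable ℂ fun z => f z j)
    (hne : ∀ z, f z ≠ 0) (hext : Extends (fun w => f w⁻¹)) :
    ∃ (u : ℂ → ℂ) (p : Fin (N + 1) → Polynomial ℂ), (∀ z, u z ≠ 0) ∧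
      ∀ z j, f z j = u z * (p j).eval z := by
  obtain ⟨g, hg, hg0, hfg⟩ := hext
  have h0mem : (0 : ℂ) ∈ ball (0 : ℂ) 1 := mem_ball_self one_pos
  obtain ⟨j0, hj0⟩ := Function.ne_iff.mp (hg0 0 h0mem)
  have hgc : ContinuousAt (fun w => g w j0) 0 := by
    have h1 := (hg.differentiableAt (isOpen_ball.mem_nhds h0mem)).continuousAt
    exact (continuousAt_pi.mp h1) j0
  obtain ⟨r, hr, hgr⟩ := Metric.eventually_nhds_iff_ball.mp (hgc.eventually_ne hj0)
  set R := max 1 r⁻¹ with hR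
  have hR1 : 1 ≤ R := le_max_left _ _
  have hRr : r⁻¹ ≤ R := le_max_right _ _
  have hRpos : 0 < R := by linarith
  have hinv : ∀ z : ℂ, R < ‖z‖ → z ≠ 0 ∧ z⁻¹ ∈ ball (0 : ℂ) 1 \ {0} ∧ z⁻¹ ∈ ball (0 : ℂ) r := by
    intro z hz
    have hz0 : z ≠ 0 := by
      rintro rfl
      rw [norm_zero] at hz
      linarith
    have hzpos : 0 < ‖z‖ := norm_pos_iff.mpr hz0
    refine ⟨hz0, ⟨?_, inv_ne_zero hz0⟩, ?_⟩
    · rw [mem_ball, dist_zero_right, norm_inv]
      exact inv_lt_one_of_one_lt₀ (by linarith)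
    · rw [mem_ball, dist_zero_right, norm_inv]
      exact inv_lt_of_inv_lt₀ hr (by linarith)
  have hratio : ∀ z : ℂ, R < ‖z‖ → f z j0 ≠ 0 ∧ ∀ j, f z j = g z⁻¹ j / g z⁻¹ j0 * f z j0 := by
    intro z hz
    obtain ⟨hz0, h1, h2⟩ := hinv z hz
    obtain ⟨c, hc⟩ := hfg z⁻¹ h1
    simp only [inv_inv] at hc
    have hc0 : c ≠ 0 := by
      rintro rfl
      rw [zero_smul] at hc
      exact hne z hc
    have hgn : g z⁻¹ j0 ≠ 0 := hgr z⁻¹ h2
    have hcj : ∀ j, f z j = c * g z⁻¹ j := fun j => by rw [hc]; rfl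
    refine ⟨by rw [hcj]; exact mul_ne_zero hc0 hgn, fun j => ?_⟩
    rw [hcj j, hcj j0, eq_comm, div_mul_eq_mul_div, div_eq_iff hgn]
    ring
  obtain ⟨k, q, G, hq, hG, hG0, hF⟩ := birkhoff (F := fun z => f z j0) (r0 := R) (r1 := R + 2)
    (a := R + 1) hRpos.le (by linarith) (by linarith) (hf j0).differentiableOn
    (fun z hz _ => (hratio z hz).1)
  have hGne : ∀ z, G z ≠ 0 := by
    intro z
    rcases le_or_gt ‖z‖ (R + 1) with h | h
    · exact hG0 z h
    · intro h0
      have h1 := hF z h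
      rw [h0, mul_zero] at h1
      exact (hratio z (by linarith)).1 h1
  have hpd : ∀ j, Differentiable ℂ (fun z => f z j / G z) := fun j => (hf j).div hG hGne
  -- growth
  have hgrow : ∀ j, ∃ (C : ℝ) (m : ℕ), ∀ z, ‖f z j / G z‖ ≤ C * (1 + ‖z‖) ^ m := by
    intro j
    have h1 : ContinuousOn (fun w => g w j / g w j0) (closedBall 0 (min r 1 / 2)) := by
      intro w hw
      rw [mem_closedBall, dist_zero_right] at hw
      have hw1 : w ∈ ball (0 : ℂ) 1 := by
        rw [mem_ball, dist_zero_right]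
        have := min_le_right r 1
        linarith
      have hwr : w ∈ ball (0 : ℂ) r := by
        rw [mem_ball, dist_zero_right]
        have := min_le_left r 1
        linarith
      have h2 := (hg.differentiableAt (isOpen_ball.mem_nhds hw1)).continuousAt
      exact (((continuousAt_pi.mp h2) j).div ((continuousAt_pi.mp h2) j0)
        (hgr w hwr)).continuousWithinAt
    obtain ⟨M1, hM1⟩ := (isCompact_closedBall (0 : ℂ) (min r 1 / 2)).exists_bound_of_continuousOn h1
    have hqc : ContinuousOn q (closedBall 0 (R + 2)⁻¹) := hq.continuousOn.mono (by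
      intro w hw
      rw [mem_closedBall, dist_zero_right] at hw
      rw [mem_ball, dist_zero_right]
      refine hw.trans_lt ?_
      apply inv_strictAnti₀ <;> linarith)
    obtain ⟨M2, hM2⟩ := (isCompact_closedBall (0 : ℂ) (R + 2)⁻¹).exists_bound_of_continuousOn hqc
    set R' := max (R + 2) (2 * (min r 1)⁻¹) with hR'
    have hmin : 0 < min r 1 := lt_min hr one_pos
    obtain ⟨M3, hM3⟩ := (isCompact_closedBall (0 : ℂ) R').exists_bound_of_continuousOn
      (hpd j).continuous.continuousOn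
    refine ⟨|M1| * Real.exp |M2| + |M3|, k.natAbs, fun z => ?_⟩
    have hz1 : 1 ≤ (1 + ‖z‖) ^ k.natAbs := one_le_pow₀ (by linarith [norm_nonneg z])
    rcases le_or_gt ‖z‖ R' with h | h
    · have h2 := hM3 z (by rw [mem_closedBall, dist_zero_right]; exact h)
      calc ‖f z j / G z‖ ≤ |M3| := h2.trans (le_abs_self _)
        _ ≤ |M1| * Real.exp |M2| + |M3| := by
            have : 0 ≤ |M1| * Real.exp |M2| := by positivity
            linarith
        _ ≤ _ := le_mul_of_one_le_right (by positivity) hz1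
    · have hRz : R + 2 < ‖z‖ := (le_max_left _ _).trans_lt h
      have hmz : 2 * (min r 1)⁻¹ < ‖z‖ := (le_max_right _ _).trans_lt h
      have hzR : R < ‖z‖ := by linarith
      obtain ⟨hz0, -, -⟩ := hinv z hzR
      have hzpos : 0 < ‖z‖ := norm_pos_iff.mpr hz0
      have h2 := (hratio z hzR).2 j
      have h3 := hF z (by linarith)
      have h4 : f z j / G z = (g z⁻¹ j / g z⁻¹ j0) * (z ^ k * Complex.exp (q z⁻¹)) := by
        rw [h2, h3]
        have := hGne z
        field_simp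
      have h5 : ‖g z⁻¹ j / g z⁻¹ j0‖ ≤ |M1| := by
        refine (hM1 z⁻¹ ?_).trans (le_abs_self _)
        rw [mem_closedBall, dist_zero_right, norm_inv]
        rw [inv_le_comm₀ hzpos (by positivity)]
        have : (min r 1 / 2)⁻¹ = 2 * (min r 1)⁻¹ := by field_simp
        rw [this]
        exact hmz.le
      have h6 : ‖Complex.exp (q z⁻¹)‖ ≤ Real.exp |M2| := by
        rw [Complex.norm_exp, Real.exp_le_exp]
        refine (Complex.re_le_norm _).trans ((hM2 z⁻¹ ?_).trans (le_abs_self _))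
        rw [mem_closedBall, dist_zero_right, norm_inv]
        exact inv_anti₀ (by linarith) hRz.le
      have h7 : ‖z ^ k‖ ≤ (1 + ‖z‖) ^ k.natAbs := by
        rw [norm_zpow]
        have hz1' : 1 ≤ ‖z‖ := by linarith
        rcases Int.natAbs_eq k with hk | hk
        · conv_lhs => rw [hk]
          rw [zpow_natCast]
          gcongr
          linarith
        · have : ‖z‖ ^ k ≤ 1 := by
            rw [hk, zpow_neg, zpow_natCast]
            exact inv_le_one_of_one_le₀ (one_le_pow₀ hz1')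
          exact this.trans hz1
      rw [h4, norm_mul, norm_mul]
      calc ‖g z⁻¹ j / g z⁻¹ j0‖ * (‖z ^ k‖ * ‖Complex.exp (q z⁻¹)‖)
          ≤ |M1| * ((1 + ‖z‖) ^ k.natAbs * Real.exp |M2|) := by gcongr
        _ = |M1| * Real.exp |M2| * (1 + ‖z‖) ^ k.natAbs := by ring
        _ ≤ _ := by
            gcongr
            linarith [abs_nonneg M3]
  choose C m hCm using hgrow
  choose p hp using fun j => poly_of_growth _ (hpd j) (C j) (m j) (hCm j)
  refine ⟨G, p, hGne, fun z j => ?_⟩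
  rw [← hp j z]
  have := hGne z
  field_simp

/-- entire curves -/
theorem entire_main (F : ι → MvPolynomial (Fin (N + 1)) ℂ) (hF : ∀ i, ∃ d, (F i).IsHomogeneous d)
    (Q : MvPolynomial (Fin (N + 1)) ℂ) {e : ℕ} (hQ : Q.IsHomogeneous e)
    (f : ℂ → Fin (N + 1) → ℂ) (hf : ∀ j, Differentiable ℂ (fun w => f w j))
    (hne : ∀ w, f w ≠ 0) (hX : ∀ w, On F Q (f w)) (hlin : LinSys (fun w => f w⁻¹))
    (hnc : ∃ z w j k, f z j * f w k ≠ f z k * f w j) :
    ∃ R : ℝ, ∀ z0 : ℂ, R < ‖z0‖ → ∀ᶠ z in 𝓝[≠] z0, ∃ P, (∀ t, ∃ j, (P j).eval t ≠ 0) ∧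
      IsGmCurve F Q P ∧ Through P (f z) := by
  by_cases hext : Extends (fun w => f w⁻¹)
  · -- a rational curve
    obtain ⟨u, p, hu, hfp⟩ := rational_of_extends f hf hne hext
    refine ⟨0, fun z0 _ => Eventually.of_forall fun z => ?_⟩
    let P : Fin (N + 1) → Polynomial ℂ := fun j =>
      (p j).comp (Polynomial.C (z - 1) + Polynomial.X)
    have hPe : ∀ t j, (P j).eval t = (p j).eval (z - 1 + t) := fun t j => by
      simp only [P, Polynomial.eval_comp, Polynomial.eval_add, Polynomial.eval_C,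
        Polynomial.eval_X]
    have hfu : ∀ x, f x = fun j => u x * (p j).eval x := fun x => funext (hfp x)
    have hpne : ∀ x, ∃ j, (p j).eval x ≠ 0 := by
      intro x
      obtain ⟨j, hj⟩ := Function.ne_iff.mp (hne x)
      refine ⟨j, fun h0 => hj ?_⟩
      rw [hfp, h0, mul_zero]
      rfl
    have hpX : ∀ x, On F Q (fun j => (p j).eval x) := by
      intro x
      obtain ⟨h1, h2⟩ := hX x
      refine ⟨fun i => ?_, ?_⟩
      · obtain ⟨d, hd⟩ := hF i
        have h3 := h1 i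
        rw [hfu, Pool.Agent.H159R3.Exp.eval_smul_homog hd] at h3
        exact (mul_eq_zero.mp h3).resolve_left (pow_ne_zero _ (hu x))
      · intro h0
        apply h2
        rw [hfu, Pool.Agent.H159R3.Exp.eval_smul_homog hQ, h0, mul_zero]
    refine ⟨P, fun t => ?_, ⟨fun t _ => ?_, fun t _ => ?_, ?_⟩, ?_⟩
    · obtain ⟨j, hj⟩ := hpne (z - 1 + t)
      exact ⟨j, by rw [hPe]; exact hj⟩
    · obtain ⟨j, hj⟩ := hpne (z - 1 + t)
      exact ⟨j, by rw [hPe]; exact hj⟩
    · have := hpX (z - 1 + t)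
      rw [show (fun j => (P j).eval t) = fun j => (p j).eval (z - 1 + t) from funext (hPe t)]
      exact this
    · -- nonconstant
      by_contra hcon
      push Not at hcon
      obtain ⟨x, y, j, k, hxy⟩ := hnc
      apply hxy
      -- the polynomial identity
      have h1 : ∀ s t : ℂ, (p j).eval s * (p k).eval t = (p k).eval s * (p j).eval t := by
        have h2 : ∀ s : ℂ, s ≠ z - 1 → ∀ t : ℂ, t ≠ z - 1 →
            (p j).eval s * (p k).eval t = (p k).eval s * (p j).eval t := by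
          intro s hs t ht
          have h3 := hcon (s - (z - 1)) (t - (z - 1)) (sub_ne_zero.mpr hs) (sub_ne_zero.mpr ht) j k
          rw [hPe, hPe, hPe, hPe] at h3
          simpa using h3
        have h4 : ∀ s : ℂ, s ≠ z - 1 → ∀ t : ℂ,
            (p j).eval s * (p k).eval t = (p k).eval s * (p j).eval t := by
          intro s hs
          have hc1 : Continuous fun t : ℂ => (p j).eval s * (p k).eval t := by fun_prop
          have hc2 : Continuous fun t : ℂ => (p k).eval s * (p j).eval t := by fun_prop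
          have hd : Dense {t : ℂ | t ≠ z - 1} := dense_compl_singleton (z - 1)
          intro t
          exact congrFun (hc1.ext_on hd hc2 (fun t ht => h2 s hs t ht)) t
        intro s t
        have hc1 : Continuous fun s : ℂ => (p j).eval s * (p k).eval t := by fun_prop
        have hc2 : Continuous fun s : ℂ => (p k).eval s * (p j).eval t := by fun_prop
        have hd : Dense {s : ℂ | s ≠ z - 1} := dense_compl_singleton (z - 1)
        exact congrFun (hc1.ext_on hd hc2 (fun s hs => h4 s hs t)) s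
      rw [hfp, hfp, hfp, hfp]
      linear_combination u x * u y * h1 x y
    · refine ⟨1, (u z)⁻¹, one_ne_zero, inv_ne_zero (hu z), fun j => ?_⟩
      rw [hPe, hfp]
      have := hu z
      field_simp
      simp
  · have hPB1 : ∀ w ∈ PB 1, w⁻¹ ≠ 0 := fun w hw => inv_ne_zero hw.1
    obtain ⟨δ, hδ, -, h⟩ := punct_main F hF Q hQ (fun w => f w⁻¹)
      (fun j w hw => ((hf j).analyticAt _).comp (analyticAt_inv hw.1))
      (fun w _ => hne _) (fun w _ => hX _) hlin hext
    refine ⟨δ⁻¹, fun z0 hz0 => ?_⟩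
    have hz0' : z0⁻¹ ∈ PB δ := inv_mem_PB hδ hz0
    have hz0n : z0 ≠ 0 := by
      intro h0
      exact hz0'.1 (by rw [h0, inv_zero])
    have h1 := h z0⁻¹ hz0'
    have h2 : Tendsto (fun z : ℂ => z⁻¹) (𝓝[≠] z0) (𝓝[≠] z0⁻¹) := by
      apply tendsto_nhdsWithin_of_tendsto_nhds_of_eventually_within
      · exact (continuousAt_inv₀ hz0n).tendsto.mono_left nhdsWithin_le_nhds
      · filter_upwards [self_mem_nhdsWithin] with z hz h3
        exact hz (inv_injective h3)
    filter_upwards [h2.eventually h1] with z hz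
    obtain ⟨P, hP, hP1, hP2⟩ := hz
    refine ⟨P, hP, hP1, ?_⟩
    rw [inv_inv] at hP2
    exact hP2

end Pool.Agent.TH143
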